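import Pool.Agent.P.MP_029dcd_co.F.Defs

/-! Layer E, elementary facts on box limits and measurability. -/

set_option autoImplicit false

namespace ECub.Erg

open CubicStab MeasureTheory Filter Topology Finset
open scoped ENNReal

theorem bas_tendsto_box {f : Z2 → ℝ} {c : ℝ} (h : BoxLim f c) :
    Tendsto (fun u : ℕ => (∑ w ∈ Ico (0 : ℤ) u ×ˢ Ico (0 : ℤ) u, f w) / (u : ℝ) ^ 2) atTop
      (𝓝 c) := by
  rw [Metric.tendsto_nhds]
  intro ε hε
  filter_upwards [h 1 (ε / 2) (by positivity), eventually_ge_atTop 1] with u hu hu1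
  have hu0 : (0 : ℝ) < u := by exact_mod_cast hu1
  have h1 := hu 0 u 0 u (by simp) (by simp) (by simp) (by simp) (by simp) (by simp)
  simp only [sub_zero, Int.cast_natCast] at h1
  rw [Real.dist_eq]
  have h2 : (∑ w ∈ Ico (0 : ℤ) u ×ˢ Ico (0 : ℤ) u, f w) / (u : ℝ) ^ 2 - c
      = ((∑ w ∈ Ico (0 : ℤ) u ×ˢ Ico (0 : ℤ) u, f w) - (u : ℝ) * u * c) / (u : ℝ) ^ 2 := by
    field_simp
  rw [h2, abs_div, abs_of_pos (pow_pos hu0 2), div_lt_iff₀ (pow_pos hu0 2)]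
  have h3 : 0 < ε * (u : ℝ) ^ 2 := mul_pos hε (pow_pos hu0 2)
  linarith

theorem bas_tendsto_int {f : ℤ → ℝ} {c : ℝ} (h : IntLim f c) :
    Tendsto (fun u : ℕ => (∑ w ∈ Ico (0 : ℤ) u, f w) / (u : ℝ)) atTop (𝓝 c) := by
  rw [Metric.tendsto_nhds]
  intro ε hε
  filter_upwards [h 1 (ε / 2) (by positivity), eventually_ge_atTop 1] with u hu hu1
  have hu0 : (0 : ℝ) < u := by exact_mod_cast hu1
  have h1 := hu 0 u (by simp) (by simp) (by simp)
  simp only [sub_zero, Int.cast_natCast] at h1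
  rw [Real.dist_eq]
  have h2 : (∑ w ∈ Ico (0 : ℤ) u, f w) / (u : ℝ) - c
      = ((∑ w ∈ Ico (0 : ℤ) u, f w) - (u : ℝ) * c) / (u : ℝ) := by
    field_simp
  rw [h2, abs_div, abs_of_pos hu0, div_lt_iff₀ hu0]
  have h3 : 0 < ε * (u : ℝ) := mul_pos hε hu0
  linarith

theorem bas_sum_shift (f : ℤ → ℝ) (y a1 a2 : ℤ) :
    ∑ a ∈ Ico a1 a2, f (y + a) = ∑ a ∈ Ico (a1 + y) (a2 + y), f a :=
  Finset.sum_Ico_add f a1 a2 y

theorem bas_sum_shift2 (f : Z2 → ℝ) (y : Z2) (a1 a2 b1 b2 : ℤ) :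
    ∑ w ∈ Ico a1 a2 ×ˢ Ico b1 b2, f (y + w)
      = ∑ w ∈ Ico (a1 + y.1) (a2 + y.1) ×ˢ Ico (b1 + y.2) (b2 + y.2), f w := by
  rw [Finset.sum_product, Finset.sum_product]
  rw [← bas_sum_shift (fun a => ∑ b ∈ Ico (b1 + y.2) (b2 + y.2), f (a, b)) y.1 a1 a2]
  refine Finset.sum_congr rfl fun a _ => ?_
  rw [← bas_sum_shift (fun b => f (y.1 + a, b)) y.2 b1 b2]
  rfl

theorem bas_tele (h : ℤ → ℝ) (a1 a2 : ℤ) (ha : a1 ≤ a2) :
    ∑ a ∈ Ico a1 a2, (h (1 + a) - h a) = h a2 - h a1 := by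
  induction a2, ha using Int.le_induction with
  | base => simp
  | succ n hn ih =>
    rw [← Finset.insert_Ico_right_eq_Ico_add_one hn, Finset.sum_insert (by simp), ih, add_comm 1 n]
    ring

theorem bas_cob1 (M : ℝ) (e : ℤ) : ∀ (h : ℤ → ℝ), (∀ a, |h a| ≤ M) → ∀ a1 a2 : ℤ, a1 ≤ a2 →
    |∑ a ∈ Ico a1 a2, (h (e + a) - h a)| ≤ 2 * M * |(e : ℝ)| := by
  have step : ∀ (h : ℤ → ℝ), (∀ a, |h a| ≤ M) → ∀ (k a1 a2 : ℤ), a1 ≤ a2 →
      |∑ a ∈ Ico a1 a2, (h (k + 1 + a) - h (k + a))| ≤ 2 * M := by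
    intro h hh k a1 a2 ha
    have h1 := bas_tele (fun a => h (k + a)) a1 a2 ha
    simp only [← add_assoc] at h1
    rw [h1]
    have h2 := abs_sub (h (k + a2)) (h (k + a1))
    have h3 := hh (k + a2)
    have h4 := hh (k + a1)
    linarith
  intro h hh a1 a2 ha
  induction e using Int.induction_on with
  | zero => simp
  | succ n ih =>
    have h1 : ∑ a ∈ Ico a1 a2, (h ((n : ℤ) + 1 + a) - h a)
        = ∑ a ∈ Ico a1 a2, (h ((n : ℤ) + 1 + a) - h (n + a))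
          + ∑ a ∈ Ico a1 a2, (h ((n : ℤ) + a) - h a) := by
      rw [← Finset.sum_add_distrib]
      exact Finset.sum_congr rfl fun a _ => by ring
    rw [h1]
    have h2 := step h hh n a1 a2 ha
    have h3 := abs_add_le (∑ a ∈ Ico a1 a2, (h ((n : ℤ) + 1 + a) - h (n + a)))
      (∑ a ∈ Ico a1 a2, (h ((n : ℤ) + a) - h a))
    have hn : (0 : ℝ) ≤ n := Nat.cast_nonneg n
    have h4 : |(((n : ℤ) + 1 : ℤ) : ℝ)| = n + 1 := by
      push_cast; exact abs_of_nonneg (by linarith)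
    have h5 : |(((n : ℤ) : ℤ) : ℝ)| = n := by
      push_cast; exact abs_of_nonneg hn
    rw [h4]
    rw [h5] at ih
    linarith
  | pred n ih =>
    have h1 : ∑ a ∈ Ico a1 a2, (h (-(n : ℤ) - 1 + a) - h a)
        = ∑ a ∈ Ico a1 a2, (h (-(n : ℤ) + a) - h a)
          - ∑ a ∈ Ico a1 a2, (h (-(n : ℤ) - 1 + 1 + a) - h (-(n : ℤ) - 1 + a)) := by
      rw [← Finset.sum_sub_distrib]
      refine Finset.sum_congr rfl fun a _ => ?_
      rw [sub_add_cancel]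
      ring
    rw [h1]
    have h2 := step h hh (-(n : ℤ) - 1) a1 a2 ha
    have h3 := abs_sub (∑ a ∈ Ico a1 a2, (h (-(n : ℤ) + a) - h a))
      (∑ a ∈ Ico a1 a2, (h (-(n : ℤ) - 1 + 1 + a) - h (-(n : ℤ) - 1 + a)))
    have hn : (0 : ℝ) ≤ n := Nat.cast_nonneg n
    have h4 : |((-(n : ℤ) - 1 : ℤ) : ℝ)| = n + 1 := by
      push_cast
      rw [abs_of_nonpos (by linarith)]; ring
    have h5 : |((-(n : ℤ) : ℤ) : ℝ)| = n := by
      push_cast
      rw [abs_of_nonpos (by linarith)]; ring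
    rw [h4]
    rw [h5] at ih
    linarith

theorem boxLim_unique {f : Z2 → ℝ} {c c' : ℝ} (h : BoxLim f c) (h' : BoxLim f c') : c = c' :=
  tendsto_nhds_unique (bas_tendsto_box h) (bas_tendsto_box h')

theorem intLim_unique {f : ℤ → ℝ} {c c' : ℝ} (h : IntLim f c) (h' : IntLim f c') : c = c' :=
  tendsto_nhds_unique (bas_tendsto_int h) (bas_tendsto_int h')

theorem boxLim_shift {f : Z2 → ℝ} {c : ℝ} (h : BoxLim f c) (y : Z2) :
    BoxLim (fun w => f (y + w)) c := by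
  intro A ε hε
  filter_upwards [h (A + 1) ε hε, eventually_ge_atTop y.1.natAbs, eventually_ge_atTop y.2.natAbs]
    with u hu h1 h2 a1 a2 b1 b2 ha1 ha ha2 hb1 hb hb2
  have e : ((A + 1 : ℕ) : ℤ) * u = (A : ℤ) * u + u := by push_cast; ring
  have h3 := hu (a1 + y.1) (a2 + y.1) (b1 + y.2) (b2 + y.2) (by rw [e]; omega) (by omega)
    (by rw [e]; omega) (by rw [e]; omega) (by omega) (by rw [e]; omega)
  rw [bas_sum_shift2]
  simpa only [add_sub_add_right_eq_sub] using h3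

theorem intLim_shift {f : ℤ → ℝ} {c : ℝ} (h : IntLim f c) (y : ℤ) :
    IntLim (fun w => f (y + w)) c := by
  intro A ε hε
  filter_upwards [h (A + 1) ε hε, eventually_ge_atTop y.natAbs] with u hu h1 a1 a2 ha1 ha ha2
  have e : ((A + 1 : ℕ) : ℤ) * u = (A : ℤ) * u + u := by push_cast; ring
  have h3 := hu (a1 + y) (a2 + y) (by rw [e]; omega) (by omega) (by rw [e]; omega)
  rw [bas_sum_shift]
  simpa only [add_sub_add_right_eq_sub] using h3

/-- a function of the first coordinate only -/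
theorem intLim_of_boxLim {f : ℤ → ℝ} {c : ℝ} (h : BoxLim (fun w : Z2 => f w.1) c) :
    IntLim f c := by
  intro A ε hε
  filter_upwards [h (A + 1) ε hε, eventually_ge_atTop 1] with u hu h1 a1 a2 ha1 ha ha2
  have e : ((A + 1 : ℕ) : ℤ) * u = (A : ℤ) * u + u := by push_cast; ring
  have hAu : (0 : ℤ) ≤ (A : ℤ) * u := by positivity
  have h3 := hu a1 a2 0 u (by rw [e]; omega) ha (by rw [e]; omega) (by rw [e]; omega) (by omega)
    (by rw [e]; omega)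
  have hu0 : (0 : ℝ) < u := by exact_mod_cast h1
  have h4 : ∑ w ∈ Ico a1 a2 ×ˢ Ico (0 : ℤ) u, f w.1 = (∑ a ∈ Ico a1 a2, f a) * u := by
    rw [Finset.sum_product, Finset.sum_mul]
    refine Finset.sum_congr rfl fun a _ => ?_
    simp [mul_comm]
  rw [h4] at h3
  have h5 : (∑ a ∈ Ico a1 a2, f a) * (u : ℝ) - ((a2 - a1 : ℤ) : ℝ) * (((u : ℤ) - 0 : ℤ) : ℝ) * c
      = ((∑ a ∈ Ico a1 a2, f a) - ((a2 - a1 : ℤ) : ℝ) * c) * u := by
    push_cast; ring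
  rw [h5, abs_mul, abs_of_pos hu0] at h3
  refine le_of_mul_le_mul_right ?_ hu0
  calc _ ≤ ε * (u : ℝ) ^ 2 := h3
    _ = ε * u * u := by ring

theorem boxLim_const (c : ℝ) : BoxLim (fun _ => c) c := by
  intro A ε hε
  refine Eventually.of_forall fun u a1 a2 b1 b2 _ ha _ _ hb _ => ?_
  have h1 : (((a2 - a1).toNat : ℕ) : ℝ) = ((a2 - a1 : ℤ) : ℝ) := by
    have : (((a2 - a1).toNat : ℕ) : ℤ) = a2 - a1 := Int.toNat_of_nonneg (by omega)
    exact_mod_cast congrArg (fun z : ℤ => (z : ℝ)) this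
  have h2 : (((b2 - b1).toNat : ℕ) : ℝ) = ((b2 - b1 : ℤ) : ℝ) := by
    have : (((b2 - b1).toNat : ℕ) : ℤ) = b2 - b1 := Int.toNat_of_nonneg (by omega)
    exact_mod_cast congrArg (fun z : ℤ => (z : ℝ)) this
  rw [Finset.sum_const, Finset.card_product, Int.card_Ico, Int.card_Ico, nsmul_eq_mul,
    Nat.cast_mul, h1, h2, sub_self, abs_zero]
  positivity

theorem boxLim_add {f g : Z2 → ℝ} {c c' : ℝ} (h : BoxLim f c) (h' : BoxLim g c') :
    BoxLim (fun w => f w + g w) (c + c') := by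
  intro A ε hε
  filter_upwards [h A (ε / 2) (by positivity), h' A (ε / 2) (by positivity)]
    with u hu hu' a1 a2 b1 b2 ha1 ha ha2 hb1 hb hb2
  have h1 := abs_le.1 (hu a1 a2 b1 b2 ha1 ha ha2 hb1 hb hb2)
  have h2 := abs_le.1 (hu' a1 a2 b1 b2 ha1 ha ha2 hb1 hb hb2)
  rw [Finset.sum_add_distrib, mul_add, abs_le]
  constructor <;> linarith [h1.1, h1.2, h2.1, h2.2]

theorem boxLim_smul {f : Z2 → ℝ} {c : ℝ} (h : BoxLim f c) (r : ℝ) :
    BoxLim (fun w => r * f w) (r * c) := by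
  intro A ε hε
  have hr : 0 < |r| + 1 := by positivity
  filter_upwards [h A (ε / (|r| + 1)) (div_pos hε hr)]
    with u hu a1 a2 b1 b2 ha1 ha ha2 hb1 hb hb2
  have h1 := hu a1 a2 b1 b2 ha1 ha ha2 hb1 hb hb2
  have h2 : ∑ w ∈ Ico a1 a2 ×ˢ Ico b1 b2, r * f w
        - ((a2 - a1 : ℤ) : ℝ) * ((b2 - b1 : ℤ) : ℝ) * (r * c)
      = r * (∑ w ∈ Ico a1 a2 ×ˢ Ico b1 b2, f w
        - ((a2 - a1 : ℤ) : ℝ) * ((b2 - b1 : ℤ) : ℝ) * c) := by
    rw [← Finset.mul_sum]; ring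
  rw [h2, abs_mul]
  calc _ ≤ (|r| + 1) * (ε / (|r| + 1) * (u : ℝ) ^ 2) :=
        mul_le_mul (by linarith) h1 (abs_nonneg _) hr.le
    _ = ε * (u : ℝ) ^ 2 := by field_simp

/-- bounded coboundaries have mean zero -/
theorem boxLim_cob (g : Z2 → ℝ) (M : ℝ) (hg : ∀ w, |g w| ≤ M) (e : Z2) :
    BoxLim (fun w => g (e + w) - g w) 0 := by
  intro A ε hε
  have hM : 0 ≤ M := (abs_nonneg _).trans (hg 0)
  obtain ⟨K, hK⟩ : ∃ K : ℝ, K = 2 * M * |(e.1 : ℝ)| + 2 * M * |(e.2 : ℝ)| := ⟨_, rfl⟩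
  filter_upwards [(tendsto_natCast_atTop_atTop (R := ℝ)).eventually_ge_atTop (2 * A * K / ε)]
    with u hu a1 a2 b1 b2 ha1 ha ha2 hb1 hb hb2
  have hu0 : (0 : ℝ) ≤ u := Nat.cast_nonneg u
  have hca : ((Ico a1 a2).card : ℝ) ≤ 2 * A * u := by
    have h1 : (((Ico a1 a2).card : ℕ) : ℤ) ≤ 2 * ((A : ℤ) * u) := by
      rw [Int.card_Ico, Int.toNat_of_nonneg (by omega)]; omega
    have h2 : ((((Ico a1 a2).card : ℕ) : ℤ) : ℝ) ≤ ((2 * ((A : ℤ) * u) : ℤ) : ℝ) :=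
      Int.cast_le.2 h1
    push_cast at h2
    linarith
  have hcb : ((Ico b1 b2).card : ℝ) ≤ 2 * A * u := by
    have h1 : (((Ico b1 b2).card : ℕ) : ℤ) ≤ 2 * ((A : ℤ) * u) := by
      rw [Int.card_Ico, Int.toNat_of_nonneg (by omega)]; omega
    have h2 : ((((Ico b1 b2).card : ℕ) : ℤ) : ℝ) ≤ ((2 * ((A : ℤ) * u) : ℤ) : ℝ) :=
      Int.cast_le.2 h1
    push_cast at h2
    linarith
  have hsplit : ∑ w ∈ Ico a1 a2 ×ˢ Ico b1 b2, (g (e + w) - g w)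
      = ∑ b ∈ Ico b1 b2, ∑ a ∈ Ico a1 a2, (g (e.1 + a, e.2 + b) - g (a, e.2 + b))
        + ∑ a ∈ Ico a1 a2, ∑ b ∈ Ico b1 b2, (g (a, e.2 + b) - g (a, b)) := by
    rw [Finset.sum_comm (s := Ico b1 b2), ← Finset.sum_add_distrib, Finset.sum_product]
    refine Finset.sum_congr rfl fun a _ => ?_
    rw [← Finset.sum_add_distrib]
    refine Finset.sum_congr rfl fun b _ => ?_
    have : e + (a, b) = (e.1 + a, e.2 + b) := rfl
    rw [this]; ring
  have hk1 : 0 ≤ 2 * M * |(e.1 : ℝ)| := by positivity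
  have hk2 : 0 ≤ 2 * M * |(e.2 : ℝ)| := by positivity
  have h1 : |∑ b ∈ Ico b1 b2, ∑ a ∈ Ico a1 a2, (g (e.1 + a, e.2 + b) - g (a, e.2 + b))|
      ≤ 2 * A * u * (2 * M * |(e.1 : ℝ)|) := by
    refine (Finset.abs_sum_le_sum_abs _ _).trans ?_
    refine (Finset.sum_le_card_nsmul _ _ (2 * M * |(e.1 : ℝ)|) fun b _ =>
      bas_cob1 M e.1 (fun a => g (a, e.2 + b)) (fun a => hg _) a1 a2 ha).trans ?_
    rw [nsmul_eq_mul]
    exact mul_le_mul_of_nonneg_right hcb hk1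
  have h2 : |∑ a ∈ Ico a1 a2, ∑ b ∈ Ico b1 b2, (g (a, e.2 + b) - g (a, b))|
      ≤ 2 * A * u * (2 * M * |(e.2 : ℝ)|) := by
    refine (Finset.abs_sum_le_sum_abs _ _).trans ?_
    refine (Finset.sum_le_card_nsmul _ _ (2 * M * |(e.2 : ℝ)|) fun a _ =>
      bas_cob1 M e.2 (fun b => g (a, b)) (fun b => hg _) b1 b2 hb).trans ?_
    rw [nsmul_eq_mul]
    exact mul_le_mul_of_nonneg_right hca hk2
  rw [mul_zero, sub_zero, hsplit]
  refine (abs_add_le _ _).trans ?_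
  have h3 : 2 * A * K ≤ u * ε := (div_le_iff₀ hε).1 hu
  calc _ ≤ 2 * A * u * (2 * M * |(e.1 : ℝ)|) + 2 * A * u * (2 * M * |(e.2 : ℝ)|) :=
        add_le_add h1 h2
    _ = (2 * A * K) * u := by rw [hK]; ring
    _ ≤ (u * ε) * u := mul_le_mul_of_nonneg_right h3 hu0
    _ = ε * (u : ℝ) ^ 2 := by ring

/-- averages over the squares with corner at the origin -/
theorem tendsto_of_boxLim {f : Z2 → ℝ} {c : ℝ} (h : BoxLim f c) :
    Tendsto (fun u : ℕ => (∑ w ∈ Ico (0 : ℤ) u ×ˢ Ico (0 : ℤ) u, f w) / (u : ℝ) ^ 2) atTop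
      (𝓝 c) :=
  bas_tendsto_box h

theorem exists_inv_conull (D : Dyn) (p : D.Ω → Prop) (hp : ∀ᵐ ω ∂D.μ, p ω) :
    ∃ Z : Set D.Ω, MeasurableSet Z ∧ (∀ w, D.T w ⁻¹' Z = Z) ∧ D.μ Zᶜ = 0 ∧ ∀ ω ∈ Z, p ω := by
  obtain ⟨N, hN, hNm, hN0⟩ := exists_measurable_superset_of_null (ae_iff.1 hp)
  refine ⟨⋂ w, D.T w ⁻¹' Nᶜ, MeasurableSet.iInter fun w => (D.mp w).measurable hNm.compl, ?_, ?_,
    ?_⟩
  · intro v
    ext ω
    simp only [Set.mem_preimage, Set.mem_iInter]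
    constructor
    · intro h w
      have := h (w - v)
      rwa [← D.T_add, sub_add_cancel] at this
    · intro h w
      rw [← D.T_add]
      exact h _
  · rw [Set.compl_iInter]
    refine measure_iUnion_null fun w => ?_
    rw [← Set.preimage_compl, compl_compl, (D.mp w).measure_preimage hNm.nullMeasurableSet]
    exact hN0
  · intro ω hω
    have h0 := Set.mem_iInter.1 hω 0
    rw [Set.mem_preimage, D.T_zero] at h0
    by_contra hc
    exact h0 (hN hc)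

theorem measurableSet_of_local {Ω ι β : Type*} [MeasurableSpace Ω] [Countable ι] [Countable β]
    [MeasurableSpace β] [MeasurableSingletonClass β] (d : Ω → ι → β)
    (hd : ∀ i, Measurable fun ω => d ω i) (B : Set Ω)
    (hB : ∀ ω ∈ B, ∃ J : Finset ι, ∀ ω', (∀ i ∈ J, d ω' i = d ω i) → ω' ∈ B) :
    MeasurableSet B := by
  have e : B = ⋃ x : (Σ J : Finset ι, (J → β)),
      ⋃ _ : (∀ ω', (∀ i : x.1, d ω' i = x.2 i) → ω' ∈ B),
        ⋂ i : x.1, (fun ω => d ω i) ⁻¹' {x.2 i} := by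
    ext ω
    simp only [Set.mem_iUnion, Set.mem_iInter, Set.mem_preimage, Set.mem_singleton_iff]
    constructor
    · intro hω
      obtain ⟨J, hJ⟩ := hB ω hω
      exact ⟨⟨J, fun i => d ω i⟩, fun ω' h => hJ ω' fun i hi => h ⟨i, hi⟩, fun _ => rfl⟩
    · rintro ⟨x, hx, h⟩
      exact hx ω h
  rw [e]
  exact MeasurableSet.iUnion fun x => MeasurableSet.iUnion fun _ =>
    MeasurableSet.iInter fun i => hd i (measurableSet_singleton _)

end ECub.Erg
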