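import Pool.Agent.P.MP_029dcd_co.F.E.ET

/-! Layer E, ergodic decomposition. -/

set_option autoImplicit false

namespace ECub.Erg

open CubicStab MeasureTheory Filter Topology Finset
open scoped ENNReal

/-- if the averages of an indicator function tend to a constant, this constant is the measure -/
theorem meas_of_boxLim {α : Type*} [MeasurableSpace α] (ν : Measure α) [IsFiniteMeasure ν]
    (T : Z2 → α → α) (hmp : ∀ x, MeasurePreserving (T x) ν ν) (A : Set α) (hA : MeasurableSet A)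
    (c : ℝ) (h : ∀ᵐ a ∂ν, BoxLim (fun w => A.indicator (fun _ => (1 : ℝ)) (T w a)) c) :
    ν.real A = c * ν.real Set.univ := by
  classical
  have hcard : ∀ u : ℕ, ((Ico (0 : ℤ) u ×ˢ Ico (0 : ℤ) u).card : ℝ) = (u : ℝ) ^ 2 := by
    intro u
    rw [Finset.card_product, Int.card_Ico]
    simp [sq]
  have hmeas : ∀ w, Measurable fun a => A.indicator (fun _ => (1 : ℝ)) (T w a) := fun w =>
    (measurable_const.indicator hA).comp (hmp w).measurable
  have h01 : ∀ y, 0 ≤ A.indicator (fun _ => (1 : ℝ)) y ∧ A.indicator (fun _ => (1 : ℝ)) y ≤ 1 := by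
    intro y
    by_cases hy : y ∈ A <;> simp [hy]
  have hint : ∀ w, Integrable (fun a => A.indicator (fun _ => (1 : ℝ)) (T w a)) ν := by
    intro w
    refine Integrable.of_bound (hmeas w).aestronglyMeasurable 1 (ae_of_all _ fun a => ?_)
    rw [Real.norm_eq_abs, abs_of_nonneg (h01 _).1]
    exact (h01 _).2
  have hI : ∀ w, ∫ a, A.indicator (fun _ => (1 : ℝ)) (T w a) ∂ν = ν.real A := by
    intro w
    have h1 : (fun a => A.indicator (fun _ => (1 : ℝ)) (T w a))
        = (T w ⁻¹' A).indicator (fun _ => (1 : ℝ)) := by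
      funext a
      by_cases ha : T w a ∈ A <;> simp [Set.indicator, ha]
    rw [h1, integral_indicator ((hmp w).measurable hA)]
    simp only [integral_const, smul_eq_mul, mul_one, MeasurableSet.univ,
      measureReal_restrict_apply, Set.univ_inter]
    rw [Measure.real, Measure.real, (hmp w).measure_preimage hA.nullMeasurableSet]
  have hlim := tendsto_integral_of_dominated_convergence (μ := ν)
    (F := fun (u : ℕ) a => (∑ w ∈ Ico (0 : ℤ) u ×ˢ Ico (0 : ℤ) u,
      A.indicator (fun _ => (1 : ℝ)) (T w a)) / (u : ℝ) ^ 2) (f := fun _ => c) (fun _ => (1 : ℝ))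
    (fun u => ((Finset.measurable_sum _ fun w _ => hmeas w).div_const _).aestronglyMeasurable)
    (integrable_const _)
    (fun u => ae_of_all _ fun a => by
      have h0 : 0 ≤ ∑ w ∈ Ico (0 : ℤ) u ×ˢ Ico (0 : ℤ) u,
          A.indicator (fun _ => (1 : ℝ)) (T w a) := Finset.sum_nonneg fun w _ => (h01 _).1
      have h1 : ∑ w ∈ Ico (0 : ℤ) u ×ˢ Ico (0 : ℤ) u,
          A.indicator (fun _ => (1 : ℝ)) (T w a) ≤ (u : ℝ) ^ 2 := by
        rw [← hcard u]
        have := Finset.sum_le_card_nsmul (Ico (0 : ℤ) u ×ˢ Ico (0 : ℤ) u)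
          (fun w => A.indicator (fun _ => (1 : ℝ)) (T w a)) 1 (fun w _ => (h01 _).2)
        simpa using this
      rw [Real.norm_eq_abs, abs_of_nonneg (div_nonneg h0 (by positivity))]
      exact div_le_one_of_le₀ h1 (by positivity))
    (h.mono fun a ha => tendsto_of_boxLim ha)
  have hev : ∀ᶠ u : ℕ in atTop, ∫ a, (∑ w ∈ Ico (0 : ℤ) u ×ˢ Ico (0 : ℤ) u,
      A.indicator (fun _ => (1 : ℝ)) (T w a)) / (u : ℝ) ^ 2 ∂ν = ν.real A := by
    filter_upwards [eventually_ge_atTop 1] with u hu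
    have hu' : (0 : ℝ) < u := by exact_mod_cast hu
    rw [integral_div, integral_finsetSum _ fun w _ => hint w]
    simp only [hI, Finset.sum_const, nsmul_eq_mul]
    rw [hcard u]
    field_simp
  have h2 := tendsto_nhds_unique (hlim.congr' hev) tendsto_const_nhds
  rw [← h2, integral_const, smul_eq_mul, mul_comm]

/-- a countable pi-system that generates the sigma-algebra -/
theorem exists_countable_pi (α : Type*) [mα : MeasurableSpace α]
    [MeasurableSpace.CountablyGenerated α] :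
    ∃ C : Set (Set α), C.Countable ∧ IsPiSystem C ∧ mα = MeasurableSpace.generateFrom C ∧
      ∀ s ∈ C, MeasurableSet s := by
  have hgen : mα = MeasurableSpace.generateFrom
      (generateSetAlgebra (MeasurableSpace.countableGeneratingSet α)) := by
    rw [generateFrom_generateSetAlgebra_eq, MeasurableSpace.generateFrom_countableGeneratingSet]
  refine ⟨generateSetAlgebra (MeasurableSpace.countableGeneratingSet α),
    countable_generateSetAlgebra MeasurableSpace.countable_countableGeneratingSet,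
    fun s hs t ht _ => isSetAlgebra_generateSetAlgebra.inter_mem hs ht, hgen, fun s hs => ?_⟩
  rw [hgen]
  exact MeasurableSpace.measurableSet_generateFrom hs

section CondKer

open ProbabilityTheory

variable {α : Type*} {m : MeasurableSpace α} [mα : MeasurableSpace α] [StandardBorelSpace α]
  {μ : Measure α} [IsFiniteMeasure μ]

theorem condKer_map (hm : m ≤ mα) (f : α → α) (hf : MeasurePreserving f μ μ)
    (hinv : ∀ s, MeasurableSet[m] s → f ⁻¹' s = s) :
    ∀ᵐ ω ∂μ, (condExpKernel μ m ω).map f = condExpKernel μ m ω := by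
  have hdiag : @Measurable α (α × α) mα (m.prod mα) Function.diag :=
    Measurable.prodMk (f := id) (g := id) (measurable_id'' hm) measurable_id
  have hmap : @Measurable (α × α) (α × α) (m.prod mα) (m.prod mα) (Prod.map id f) :=
    @Measurable.prodMap α α α α m m mα mα id f (@measurable_id α m) hf.measurable
  have heq : (μ.trim hm) ⊗ₘ ((condExpKernel μ m).map f) = (μ.trim hm) ⊗ₘ condExpKernel μ m := by
    rw [Measure.compProd_map hf.measurable, compProd_trim_condExpKernel hm]
    refine @Measure.ext (α × α) (m.prod mα) _ _ fun S hS => ?_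
    rw [@Measure.map_apply _ _ (m.prod mα) (m.prod mα) _ _ hmap S hS,
      @Measure.map_apply _ _ mα (m.prod mα) _ _ hdiag _ (hmap hS),
      @Measure.map_apply _ _ mα (m.prod mα) _ _ hdiag _ hS,
      ← hf.measure_preimage (hdiag hS).nullMeasurableSet]
    congr 1
    ext a
    have hsec : MeasurableSet[m] ((fun x => (x, f a)) ⁻¹' S) :=
      @measurable_prodMk_right α α m mα (f a) S hS
    have h1 := hinv _ hsec
    have h2 : a ∈ f ⁻¹' ((fun x => (x, f a)) ⁻¹' S) ↔ a ∈ ((fun x => (x, f a)) ⁻¹' S) := by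
      rw [h1]
    exact h2.symm
  have h := ae_of_ae_trim hm (Kernel.ae_eq_of_compProd_eq heq)
  filter_upwards [h] with ω hω
  rw [← Kernel.map_apply _ hf.measurable]
  exact hω

theorem condKer_const (hm : m ≤ mα) (φ : α → ℝ) (hφ : Measurable[m] φ) :
    ∀ᵐ ω ∂μ, ∀ᵐ x ∂(condExpKernel μ m ω), φ x = φ ω := by
  have hdiag : @Measurable α (α × α) mα (m.prod mα) Function.diag :=
    Measurable.prodMk (f := id) (g := id) (measurable_id'' hm) measurable_id
  have h1 : @Measurable (α × α) ℝ (m.prod mα) _ (fun p => φ p.1) :=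
    hφ.comp (@measurable_fst α α m mα)
  have h2 : @Measurable (α × α) ℝ (m.prod mα) _ (fun p => φ p.2) :=
    (hφ.mono hm le_rfl).comp (@measurable_snd α α m mα)
  have hS : MeasurableSet[m.prod mα] {p : α × α | φ p.2 = φ p.1} :=
    @measurableSet_eq_fun (α × α) ℝ (m.prod mα) _ _ _ _ h2 h1
  have h : ∀ᵐ p ∂((μ.trim hm) ⊗ₘ condExpKernel μ m), φ p.2 = φ p.1 := by
    rw [compProd_trim_condExpKernel hm]
    refine (@ae_map_iff α (α × α) mα (m.prod mα) μ _ (@Measurable.aemeasurable _ _ mα (m.prod mα) _ _ hdiag) _ hS).2 ?_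
    exact ae_of_all _ fun a => rfl
  exact ae_of_ae_trim hm (Measure.ae_ae_of_ae_compProd h)

theorem condKer_bind (hm : m ≤ mα) :
    μ.bind (Kernel.comap (condExpKernel μ m) id (measurable_id'' hm)) = μ := by
  ext s hs
  rw [Measure.bind_apply hs (Kernel.measurable _).aemeasurable]
  conv_rhs => rw [← condExpKernel_comp_trim (μ := μ) hm]
  rw [Measure.bind_apply hs (Kernel.measurable _).aemeasurable,
    lintegral_trim hm (measurable_condExpKernel hs)]
  rfl

end CondKer

/-- an invariant probability measure for which the averages of the indicator functions of a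
generating pi-system tend to constants is ergodic -/
theorem ergM_of_boxLim {α : Type*} [mα : MeasurableSpace α] (ν : Measure α)
    [IsProbabilityMeasure ν] (T : Z2 → α → α) (hmp : ∀ x, MeasurePreserving (T x) ν ν)
    (C : Set (Set α)) (hpi : IsPiSystem C) (hgen : mα = MeasurableSpace.generateFrom C)
    (hC : ∀ s ∈ C, MeasurableSet s)
    (h : ∀ A ∈ C, ∃ c : ℝ,
      ∀ᵐ a ∂ν, BoxLim (fun w => A.indicator (fun _ => (1 : ℝ)) (T w a)) c) : ErgM T ν := by
  intro E hE hinv
  have hmpE : ∀ x, MeasurePreserving (T x) (ν.restrict E) (ν.restrict E) := by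
    intro x
    have := (hmp x).restrict_preimage hE
    rwa [hinv x] at this
  have hfin : IsFiniteMeasure (ν E • ν) := ⟨by
    simp only [Measure.smul_apply, measure_univ, smul_eq_mul, mul_one]
    exact measure_lt_top _ _⟩
  have heq : ν.restrict E = ν E • ν := by
    refine ext_of_generate_finite C hgen hpi (fun A hA => ?_) (by simp)
    obtain ⟨c, hc⟩ := h A hA
    have h1 := meas_of_boxLim ν T hmp A (hC A hA) c hc
    have h2 := meas_of_boxLim (ν.restrict E) T hmpE A (hC A hA) c (ae_restrict_of_ae hc)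
    rw [probReal_univ, mul_one] at h1
    rw [← ENNReal.toReal_eq_toReal_iff' (measure_ne_top _ _) (measure_ne_top _ _)]
    have h3 : (ν.restrict E).real Set.univ = ν.real E := by
      simp [Measure.real]
    rw [h3, ← h1] at h2
    rw [Measure.smul_apply, smul_eq_mul, ENNReal.toReal_mul, mul_comm]
    exact h2
  have h0 : ν.restrict E Eᶜ = 0 := by
    rw [Measure.restrict_apply hE.compl]
    simp
  rw [heq, Measure.smul_apply, smul_eq_mul, mul_eq_zero] at h0
  exact h0

theorem erg_dec (D : Dyn) : ∃ κ : ProbabilityTheory.Kernel D.Ω D.Ω,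
    ProbabilityTheory.IsMarkovKernel κ ∧ D.μ.bind κ = D.μ ∧
      ∀ᵐ ω ∂D.μ, (∀ w, MeasurePreserving (D.T w) (κ ω) (κ ω)) ∧ ErgM D.T (κ ω) := by
  have hm := invS_le D.T
  have hbind := condKer_bind (μ := D.μ) hm
  refine ⟨ProbabilityTheory.Kernel.comap (ProbabilityTheory.condExpKernel D.μ (invS D.T)) id
    (measurable_id'' hm), inferInstance, hbind, ?_⟩
  obtain ⟨C, hCc, hpi, hgen, hC⟩ := exists_countable_pi D.Ω
  have h1 : ∀ᵐ ω ∂D.μ, ∀ w, (ProbabilityTheory.condExpKernel D.μ (invS D.T) ω).map (D.T w)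
      = ProbabilityTheory.condExpKernel D.μ (invS D.T) ω :=
    ae_all_iff.2 fun w => condKer_map hm (D.T w) (D.mp w) fun s hs => hs.2 w
  have h2 : ∀ᵐ ω ∂D.μ, ∀ A ∈ C, ∃ c : ℝ,
      ∀ᵐ a ∂(ProbabilityTheory.condExpKernel D.μ (invS D.T) ω),
        BoxLim (fun w => A.indicator (fun _ => (1 : ℝ)) (D.T w a)) c := by
    refine (ae_ball_iff hCc).2 fun A hA => ?_
    obtain ⟨Fb, hFm, hFi, -, -, hlim⟩ := et2 D.μ D.T D.T_zero D.T_add D.mp
      (A.indicator fun _ => (1 : ℝ)) ((integrable_const _).indicator (hC A hA))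
    have h3 := condKer_const (μ := D.μ) hm Fb (measurable_invS hFm hFi)
    rw [← hbind] at hlim
    have h4 := Measure.ae_ae_of_ae_comp hlim
    filter_upwards [h3, h4] with ω h3 h4
    refine ⟨Fb ω, ?_⟩
    filter_upwards [h3, h4] with a h3 h4
    rw [← h3]
    exact h4
  filter_upwards [h1, h2] with ω h1 h2
  have hmp : ∀ w, MeasurePreserving (D.T w) (ProbabilityTheory.condExpKernel D.μ (invS D.T) ω)
      (ProbabilityTheory.condExpKernel D.μ (invS D.T) ω) := fun w => ⟨(D.mp w).measurable, h1 w⟩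
  exact ⟨hmp, ergM_of_boxLim _ D.T hmp C hpi hgen hC h2⟩

theorem fac_boxLim (D' D : Dyn) (π : D'.Ω → D.Ω) (hπ : D'.Fac D π) (hD : D.Erg)
    (A : Set D.Ω) (hA : MeasurableSet A) :
    ∀ᵐ ω ∂D'.μ, BoxLim (fun w => (π ⁻¹' A).indicator (fun _ => (1 : ℝ)) (D'.T w ω))
      (D.μ.real A) := by
  have h := et2_erg D.μ D.T D.T_zero D.T_add D.mp hD (A.indicator fun _ => (1 : ℝ))
    ((integrable_const _).indicator hA)
  have hI : ∫ a, A.indicator (fun _ => (1 : ℝ)) a ∂D.μ = D.μ.real A := by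
    rw [integral_indicator hA]
    simp
  rw [hI] at h
  filter_upwards [hπ.mp.quasiMeasurePreserving.ae h] with ω hω
  have : (fun w => (π ⁻¹' A).indicator (fun _ => (1 : ℝ)) (D'.T w ω))
      = fun w => A.indicator (fun _ => (1 : ℝ)) (D.T w (π ω)) := by
    funext w
    rw [← hπ.comm]
    by_cases hw : π (D'.T w ω) ∈ A <;> simp [Set.indicator, hw]
  rw [this]
  exact hω

theorem erg_dec_fac (D' D : Dyn) (π : D'.Ω → D.Ω) (hπ : D'.Fac D π) (hD : D.Erg) :
    ∃ κ : ProbabilityTheory.Kernel D'.Ω D'.Ω,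
    ProbabilityTheory.IsMarkovKernel κ ∧ D'.μ.bind κ = D'.μ ∧
      ∀ᵐ ω ∂D'.μ, (∀ w, MeasurePreserving (D'.T w) (κ ω) (κ ω)) ∧ ErgM D'.T (κ ω) ∧
        MeasurePreserving π (κ ω) D.μ := by
  obtain ⟨κ, hκ, hbind, hae⟩ := erg_dec D'
  refine ⟨κ, hκ, hbind, ?_⟩
  obtain ⟨C, hCc, hpi, hgen, hC⟩ := exists_countable_pi D.Ω
  have h2 : ∀ᵐ ω ∂D'.μ, ∀ A ∈ C, ∀ᵐ a ∂(κ ω),
      BoxLim (fun w => (π ⁻¹' A).indicator (fun _ => (1 : ℝ)) (D'.T w a)) (D.μ.real A) := by
    refine (ae_ball_iff hCc).2 fun A hA => ?_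
    have h := fac_boxLim D' D π hπ hD A (hC A hA)
    rw [← hbind] at h
    exact Measure.ae_ae_of_ae_comp h
  filter_upwards [hae, h2] with ω h1 h2
  refine ⟨h1.1, h1.2, hπ.mp.measurable, ?_⟩
  have : IsProbabilityMeasure ((κ ω).map π) :=
    Measure.isProbabilityMeasure_map hπ.mp.measurable.aemeasurable
  refine ext_of_generate_finite C hgen hpi (fun A hA => ?_) (by simp)
  have h3 := meas_of_boxLim (κ ω) D'.T h1.1 (π ⁻¹' A) (hπ.mp.measurable (hC A hA)) _ (h2 A hA)
  rw [probReal_univ, mul_one] at h3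
  rw [Measure.map_apply hπ.mp.measurable (hC A hA),
    ← ENNReal.toReal_eq_toReal_iff' (measure_ne_top _ _) (measure_ne_top _ _)]
  exact h3

theorem indep_fac (D' D : Dyn) (π : D'.Ω → D.Ω) (hπ : D'.Fac D π) (hD : D.Erg)
    {β : Type*} [MeasurableSpace β] (Ψ : D'.Ω → β) (hΨ : Measurable Ψ)
    (hinv : ∀ w ω, Ψ (D'.T w ω) = Ψ ω) :
    D'.μ.map (fun ω => (π ω, Ψ ω)) = D.μ.prod (D'.μ.map Ψ) := by
  refine (Measure.prod_eq fun s t hs ht => ?_).symm
  have hE : MeasurableSet (Ψ ⁻¹' t) := hΨ ht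
  have hmpE : ∀ x, MeasurePreserving (D'.T x) (D'.μ.restrict (Ψ ⁻¹' t))
      (D'.μ.restrict (Ψ ⁻¹' t)) := by
    intro x
    have h1 := (D'.mp x).restrict_preimage hE
    have h2 : D'.T x ⁻¹' (Ψ ⁻¹' t) = Ψ ⁻¹' t := by
      ext a
      simp [hinv]
    rwa [h2] at h1
  have h := meas_of_boxLim (D'.μ.restrict (Ψ ⁻¹' t)) D'.T hmpE (π ⁻¹' s) (hπ.mp.measurable hs) _
    (ae_restrict_of_ae (fac_boxLim D' D π hπ hD s hs))
  rw [Measure.map_apply (hπ.mp.measurable.prodMk hΨ) (hs.prod ht), Measure.map_apply hΨ ht,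
    ← ENNReal.toReal_eq_toReal_iff' (measure_ne_top _ _)
      (ENNReal.mul_ne_top (measure_ne_top _ _) (measure_ne_top _ _)), ENNReal.toReal_mul]
  rw [Measure.real, Measure.real, Measure.real, Measure.restrict_apply (hπ.mp.measurable hs),
    Measure.restrict_apply MeasurableSet.univ, Set.univ_inter] at h
  exact h

end ECub.Erg
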