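import Pool.Agent.P.MP_029dcd_co.F.Defs

/-! Layer E, the sigma-algebra of strictly invariant sets. -/

set_option autoImplicit false

namespace ECub.Erg

open MeasureTheory Filter Topology

variable {α : Type*} [mα : MeasurableSpace α]

/-- the sigma-algebra of measurable sets that are strictly invariant under all `T w` -/
@[reducible] def invS (T : Z2 → α → α) : MeasurableSpace α where
  MeasurableSet' B := MeasurableSet B ∧ ∀ w, T w ⁻¹' B = B
  measurableSet_empty := ⟨MeasurableSet.empty, fun _ => rfl⟩
  measurableSet_compl B hB := ⟨hB.1.compl, fun w => by rw [Set.preimage_compl, hB.2 w]⟩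
  measurableSet_iUnion f hf := ⟨MeasurableSet.iUnion fun i => (hf i).1, fun w => by
    rw [Set.preimage_iUnion]; exact Set.iUnion_congr fun i => (hf i).2 w⟩

theorem measurableSet_invS {T : Z2 → α → α} {B : Set α} :
    MeasurableSet[invS T] B ↔ MeasurableSet B ∧ ∀ w, T w ⁻¹' B = B := Iff.rfl

theorem invS_le (T : Z2 → α → α) : invS T ≤ mα := fun _ hB => hB.1

theorem measurable_invS {β : Type*} [MeasurableSpace β] {T : Z2 → α → α} {f : α → β}
    (hf : Measurable f) (hinv : ∀ w a, f (T w a) = f a) : Measurable[invS T] f := by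
  intro s hs
  refine ⟨hf hs, fun w => ?_⟩
  ext a
  simp [hinv w a]

theorem inv_of_measurable_invS {β : Type*} [MeasurableSpace β] [MeasurableSingletonClass β]
    {T : Z2 → α → α} {f : α → β} (hf : Measurable[invS T] f) (w : Z2) (a : α) :
    f (T w a) = f a := by
  have h := (hf (measurableSet_singleton (f a))).2 w
  have : a ∈ T w ⁻¹' (f ⁻¹' {f a}) := by rw [h]; rfl
  simpa using this

end ECub.Erg
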