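import Pool.Agent.P.MP_029dcd_co.F.Defs

/-! Layer E, the maximal inequality for actions of `ℤ × ℤ`. -/

set_option autoImplicit false

namespace ECub.Erg

open CubicStab MeasureTheory Filter Topology Finset
open scoped ENNReal

theorem mem_box' {y w : Z2} {u : ℕ} :
    w ∈ box y u ↔ (y.1 - u ≤ w.1 ∧ w.1 ≤ y.1 + u) ∧ (y.2 - u ≤ w.2 ∧ w.2 ≤ y.2 + u) := by
  simp [box, Finset.mem_product, Finset.mem_Icc]

theorem card_box' (y : Z2) (u : ℕ) : (box y u).card = (2 * u + 1) ^ 2 := by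
  have h : ∀ a : ℤ, (a + u + 1 - (a - u)).toNat = 2 * u + 1 := fun a => by omega
  simp only [box, Finset.card_product, Int.card_Icc, h]
  ring

theorem sum_box_shift {β : Type*} [AddCommMonoid β] (g : Z2 → β) (y : Z2) (u : ℕ) :
    ∑ w ∈ box y u, g w = ∑ w ∈ box 0 u, g (w + y) := by
  symm
  refine Finset.sum_bij' (fun w _ => w + y) (fun w _ => w - y) ?_ ?_ ?_ ?_ ?_
  · intro w hw
    rw [mem_box'] at hw ⊢
    simp only [Prod.fst_zero, Prod.snd_zero, Prod.fst_add, Prod.snd_add] at hw ⊢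
    omega
  · intro w hw
    rw [mem_box'] at hw ⊢
    simp only [Prod.fst_zero, Prod.snd_zero, Prod.fst_sub, Prod.snd_sub] at hw ⊢
    omega
  · intro w _; simp
  · intro w _; simp
  · intro w _; rfl

theorem sq_double (r : ℕ) : (2 * (2 * r) + 1) ^ 2 ≤ 4 * (2 * r + 1) ^ 2 :=
  calc (2 * (2 * r) + 1) ^ 2 ≤ (2 * (2 * r + 1)) ^ 2 := Nat.pow_le_pow_left (by omega) 2
    _ = 4 * (2 * r + 1) ^ 2 := by ring

/-- discrete Vitali covering lemma -/
theorem vitali (lam : ℝ≥0∞) (g : Z2 → ℝ≥0∞) (r : Z2 → ℕ) (S : Finset Z2)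
    (h : ∀ y ∈ S, lam * (((2 * r y + 1) ^ 2 : ℕ) : ℝ≥0∞) ≤ ∑ w ∈ box y (r y), g w) :
    lam * (S.card : ℝ≥0∞) ≤ 4 * ∑ w ∈ S.biUnion (fun y => box y (r y)), g w := by
  classical
  induction S using Finset.strongInduction with
  | H S ih =>
    rcases S.eq_empty_or_nonempty with rfl | hne
    · simp
    obtain ⟨y, hy, hmax⟩ := S.exists_max_image r hne
    set S' := S.filter fun z => Disjoint (box z (r z)) (box y (r y)) with hS'
    have hyb : y ∈ box y (r y) := by rw [mem_box']; omega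
    have hss : S' ⊂ S := by
      refine Finset.filter_ssubset.2 ⟨y, hy, fun hd => ?_⟩
      exact (Finset.disjoint_left.1 hd) hyb hyb
    have h1 := ih S' hss fun z hz => h z (Finset.mem_filter.1 hz).1
    have hsub : S \ S' ⊆ box y (2 * r y) := by
      intro z hz
      obtain ⟨hzS, hz'⟩ := Finset.mem_sdiff.1 hz
      have hnd : ¬ Disjoint (box z (r z)) (box y (r y)) := fun hd =>
        hz' (Finset.mem_filter.2 ⟨hzS, hd⟩)
      obtain ⟨w, hw1, hw2⟩ := Finset.not_disjoint_iff.1 hnd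
      have := hmax z hzS
      rw [mem_box'] at hw1 hw2 ⊢
      push_cast
      omega
    have hcard : S.card ≤ S'.card + 4 * (2 * r y + 1) ^ 2 := by
      have e1 := Finset.card_sdiff_add_card_eq_card hss.subset
      have e2 := Finset.card_le_card hsub
      rw [card_box'] at e2
      have e3 : (2 * (2 * r y) + 1) ^ 2 ≤ 4 * (2 * r y + 1) ^ 2 := sq_double _
      omega
    have hdisj : Disjoint (S'.biUnion fun z => box z (r z)) (box y (r y)) := by
      rw [Finset.disjoint_biUnion_left]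
      intro z hz
      exact (Finset.mem_filter.1 hz).2
    have hsum : ∑ w ∈ S'.biUnion (fun z => box z (r z)), g w + ∑ w ∈ box y (r y), g w ≤
        ∑ w ∈ S.biUnion (fun z => box z (r z)), g w := by
      rw [← Finset.sum_union hdisj]
      refine Finset.sum_le_sum_of_subset ?_
      refine Finset.union_subset (Finset.biUnion_subset_biUnion_of_subset_left _ hss.subset) ?_
      exact Finset.subset_biUnion_of_mem (fun z => box z (r z)) hy
    calc lam * (S.card : ℝ≥0∞)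
        ≤ lam * ((S'.card + 4 * (2 * r y + 1) ^ 2 : ℕ) : ℝ≥0∞) := by
          gcongr
      _ = lam * (S'.card : ℝ≥0∞) + 4 * (lam * (((2 * r y + 1) ^ 2 : ℕ) : ℝ≥0∞)) := by
          push_cast; ring
      _ ≤ 4 * ∑ w ∈ S'.biUnion (fun z => box z (r z)), g w + 4 * ∑ w ∈ box y (r y), g w := by
          gcongr
          exact h y hy
      _ ≤ _ := by rw [← mul_add]; gcongr

/-- the maximal inequality -/
theorem maximal {α : Type*} [MeasurableSpace α] (μ : Measure α)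
    (T : Z2 → α → α) (hadd : ∀ x y a, T (x + y) a = T x (T y a))
    (hmp : ∀ x, MeasurePreserving (T x) μ μ) (f : α → ℝ≥0∞) (hf : Measurable f) (lam : ℝ≥0∞) :
    lam * μ {a | ∃ u : ℕ, lam * (((2 * u + 1) ^ 2 : ℕ) : ℝ≥0∞) < ∑ w ∈ box 0 u, f (T w a)}
      ≤ 16 * ∫⁻ a, f a ∂μ := by
  classical
  set E : ℕ → Set α := fun U =>
    {a | ∃ u : ℕ, u ≤ U ∧ lam * (((2 * u + 1) ^ 2 : ℕ) : ℝ≥0∞) < ∑ w ∈ box 0 u, f (T w a)}
    with hE
  have hEm : ∀ U, MeasurableSet (E U) := by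
    intro U
    have : E U = ⋃ u : ℕ, ⋃ _ : u ≤ U,
        {a | lam * (((2 * u + 1) ^ 2 : ℕ) : ℝ≥0∞) < ∑ w ∈ box 0 u, f (T w a)} := by
      ext a; simp [hE]
    rw [this]
    refine MeasurableSet.iUnion fun u => MeasurableSet.iUnion fun _ => ?_
    exact measurableSet_lt measurable_const
      (Finset.measurable_sum _ fun w _ => hf.comp (hmp w).measurable)
  have hmono : Monotone E := fun U V hUV a ⟨u, hu, h⟩ => ⟨u, hu.trans hUV, h⟩
  have hU : {a | ∃ u : ℕ, lam * (((2 * u + 1) ^ 2 : ℕ) : ℝ≥0∞) < ∑ w ∈ box 0 u, f (T w a)}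
      = ⋃ U, E U := by
    ext a
    simp only [Set.mem_ofPred_eq, Set.mem_iUnion, hE]
    exact ⟨fun ⟨u, h⟩ => ⟨u, u, le_rfl, h⟩, fun ⟨_, u, _, h⟩ => ⟨u, h⟩⟩
  rw [hU, hmono.measure_iUnion, ENNReal.mul_iSup]
  refine iSup_le fun U => ?_
  have hpt : ∀ a, lam * ∑ y ∈ box 0 U, (E U).indicator (fun _ => (1 : ℝ≥0∞)) (T y a) ≤
      4 * ∑ w ∈ box 0 (2 * U), f (T w a) := by
    intro a
    set S := (box 0 U).filter fun y => T y a ∈ E U with hS
    have hr : ∀ y, ∃ u : ℕ, y ∈ S → u ≤ U ∧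
        lam * (((2 * u + 1) ^ 2 : ℕ) : ℝ≥0∞) ≤ ∑ w ∈ box y u, f (T w a) := by
      intro y
      by_cases hy : y ∈ S
      · obtain ⟨u, hu, h⟩ := (Finset.mem_filter.1 hy).2
        refine ⟨u, fun _ => ⟨hu, ?_⟩⟩
        rw [sum_box_shift]
        simpa only [hadd] using h.le
      · exact ⟨0, fun h => absurd h hy⟩
    choose r hr using hr
    have h1 := vitali lam (fun w => f (T w a)) r S fun y hy => (hr y hy).2
    have h2 : ∑ y ∈ box 0 U, (E U).indicator (fun _ => (1 : ℝ≥0∞)) (T y a) = S.card := by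
      rw [hS, Finset.card_filter]
      push_cast
      refine Finset.sum_congr rfl fun y _ => ?_
      by_cases hy : T y a ∈ E U <;> simp [hy]
    rw [h2]
    refine h1.trans ?_
    gcongr
    intro w hw
    obtain ⟨y, hy, hw⟩ := Finset.mem_biUnion.1 hw
    have h3 := (hr y hy).1
    have h4 := (Finset.mem_filter.1 hy).1
    rw [mem_box'] at hw h4 ⊢
    simp only [Prod.fst_zero, Prod.snd_zero] at h4 ⊢
    push_cast
    omega
  have hint := lintegral_mono (μ := μ) hpt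
  have hm1 : ∀ y, Measurable fun a => (E U).indicator (fun _ => (1 : ℝ≥0∞)) (T y a) :=
    fun y => (measurable_const.indicator (hEm U)).comp (hmp y).measurable
  have hm2 : ∀ w, Measurable fun a => f (T w a) := fun w => hf.comp (hmp w).measurable
  rw [lintegral_const_mul _ (Finset.measurable_sum _ fun y _ => hm1 y),
    lintegral_const_mul _ (Finset.measurable_sum _ fun w _ => hm2 w),
    lintegral_finsetSum _ (fun y _ => hm1 y),
    lintegral_finsetSum _ (fun w _ => hm2 w)] at hint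
  have e1 : ∀ y, ∫⁻ a, (E U).indicator (fun _ => (1 : ℝ≥0∞)) (T y a) ∂μ = μ (E U) := by
    intro y
    rw [(hmp y).lintegral_comp (measurable_const.indicator (hEm U))]
    simp [hEm U]
  have e2 : ∀ w, ∫⁻ a, f (T w a) ∂μ = ∫⁻ a, f a ∂μ := fun w => (hmp w).lintegral_comp hf
  simp only [e1, e2, Finset.sum_const, card_box', nsmul_eq_mul] at hint
  have hc0 : (((2 * U + 1) ^ 2 : ℕ) : ℝ≥0∞) ≠ 0 := by positivity
  have hc1 : (((2 * U + 1) ^ 2 : ℕ) : ℝ≥0∞) ≠ ∞ := ENNReal.natCast_ne_top _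
  rw [← ENNReal.mul_le_mul_iff_right hc0 hc1]
  calc (((2 * U + 1) ^ 2 : ℕ) : ℝ≥0∞) * (lam * μ (E U))
      = lam * ((((2 * U + 1) ^ 2 : ℕ) : ℝ≥0∞) * μ (E U)) := by ring
    _ ≤ 4 * ((((2 * (2 * U) + 1) ^ 2 : ℕ) : ℝ≥0∞) * ∫⁻ a, f a ∂μ) := hint
    _ ≤ 4 * (((4 * (2 * U + 1) ^ 2 : ℕ) : ℝ≥0∞) * ∫⁻ a, f a ∂μ) := by
        gcongr
        exact sq_double _
    _ = _ := by push_cast; ring

end ECub.Erg
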