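import Pool.Agent.P.MP_029dcd_co.F.E.Basic
import Pool.Agent.P.MP_029dcd_co.F.E.Inv
import Pool.Agent.P.MP_029dcd_co.F.E.Max

/-! Layer E, the pointwise ergodic theorems. -/

set_option autoImplicit false

namespace ECub.Erg

open CubicStab MeasureTheory Filter Topology Finset
open scoped ENNReal

theorem boxLim_of_approx {f : Z2 → ℝ} {c : ℝ}
    (h : ∀ δ : ℝ, 0 < δ → ∃ (f' : Z2 → ℝ) (c' : ℝ), BoxLim f' c' ∧ |c - c'| ≤ δ ∧
      ∀ u : ℕ, ∑ w ∈ box 0 u, |f w - f' w| ≤ δ * (2 * (u : ℝ) + 1) ^ 2) : BoxLim f c := by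
  intro A ε hε
  have hK : (0 : ℝ) < (2 * A + 1) ^ 2 := by positivity
  obtain ⟨f', c', h1, h2, h3⟩ := h (ε / (4 * (2 * A + 1) ^ 2)) (by positivity)
  set δ : ℝ := ε / (4 * (2 * A + 1) ^ 2) with hδ
  have hδ0 : 0 < δ := by positivity
  have hδK : δ * (2 * A + 1) ^ 2 = ε / 4 := by rw [hδ]; field_simp
  filter_upwards [h1 A (ε / 2) (by positivity), eventually_ge_atTop 1] with u hu hu1
  intro a1 a2 b1 b2 ha1 ha ha2 hb1 hb hb2
  have e1 := hu a1 a2 b1 b2 ha1 ha ha2 hb1 hb hb2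
  have hu1' : (1 : ℝ) ≤ u := by exact_mod_cast hu1
  have hA0 : (0 : ℝ) ≤ A := Nat.cast_nonneg A
  have e2 : |∑ w ∈ Ico a1 a2 ×ˢ Ico b1 b2, (f w - f' w)| ≤ ε / 4 * (u : ℝ) ^ 2 := by
    refine (Finset.abs_sum_le_sum_abs _ _).trans ?_
    have hsub : Ico a1 a2 ×ˢ Ico b1 b2 ⊆ box 0 (A * u) := by
      intro w hw
      rw [Finset.mem_product, Finset.mem_Ico, Finset.mem_Ico] at hw
      rw [mem_box']
      simp only [Prod.fst_zero, Prod.snd_zero]
      push_cast
      omega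
    refine (Finset.sum_le_sum_of_subset_of_nonneg hsub fun _ _ _ => abs_nonneg _).trans ?_
    refine (h3 (A * u)).trans ?_
    rw [← hδK, mul_assoc]
    refine mul_le_mul_of_nonneg_left ?_ hδ0.le
    rw [← mul_pow]
    refine pow_le_pow_left₀ (by positivity) ?_ 2
    push_cast
    nlinarith
  have hx0 : (0 : ℝ) ≤ ((a2 - a1 : ℤ) : ℝ) := by exact_mod_cast sub_nonneg.2 ha
  have hy0 : (0 : ℝ) ≤ ((b2 - b1 : ℤ) : ℝ) := by exact_mod_cast sub_nonneg.2 hb
  have hx1 : ((a2 - a1 : ℤ) : ℝ) ≤ (2 * A + 1) * u := by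
    have : a2 - a1 ≤ (2 * A + 1) * u := by nlinarith
    exact_mod_cast this
  have hy1 : ((b2 - b1 : ℤ) : ℝ) ≤ (2 * A + 1) * u := by
    have : b2 - b1 ≤ (2 * A + 1) * u := by nlinarith
    exact_mod_cast this
  set x : ℝ := ((a2 - a1 : ℤ) : ℝ)
  set y : ℝ := ((b2 - b1 : ℤ) : ℝ)
  have e3 : |x * y * (c' - c)| ≤ ε / 4 * (u : ℝ) ^ 2 := by
    rw [abs_mul, abs_of_nonneg (mul_nonneg hx0 hy0), abs_sub_comm]
    calc x * y * |c - c'| ≤ ((2 * A + 1) * u) * ((2 * A + 1) * u) * δ := by gcongr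
      _ = δ * (2 * A + 1) ^ 2 * (u : ℝ) ^ 2 := by ring
      _ = _ := by rw [hδK]
  have e4 : (∑ w ∈ Ico a1 a2 ×ˢ Ico b1 b2, f w) - x * y * c =
      ((∑ w ∈ Ico a1 a2 ×ˢ Ico b1 b2, f' w) - x * y * c') +
        (∑ w ∈ Ico a1 a2 ×ˢ Ico b1 b2, (f w - f' w)) + x * y * (c' - c) := by
    rw [Finset.sum_sub_distrib]; ring
  rw [e4]
  refine (abs_add_three _ _ _).trans ?_
  linarith

variable {α : Type*} [mα : MeasurableSpace α] {μ : Measure α} {T : Z2 → α → α}

theorem ae_shift (hmp : ∀ x, MeasurePreserving (T x) μ μ) {p : α → Prop} (h : ∀ᵐ a ∂μ, p a) :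
    ∀ᵐ a ∂μ, ∀ w, p (T w a) :=
  ae_all_iff.2 fun w => (hmp w).quasiMeasurePreserving.ae h

theorem integral_comp_mp {β : Type*} [MeasurableSpace β] {ν : Measure β} {S : α → β}
    (hS : MeasurePreserving S μ ν) {g : β → ℝ} (hg : AEStronglyMeasurable g ν) :
    ∫ a, g (S a) ∂μ = ∫ b, g b ∂ν := by
  have := integral_map hS.aemeasurable (f := g) (by rwa [hS.map_eq])
  rw [← this, hS.map_eq]

theorem setIntegral_comp_mp {β : Type*} [MeasurableSpace β] {ν : Measure β} {S : α → β}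
    (hS : MeasurePreserving S μ ν) {g : β → ℝ} (hg : AEStronglyMeasurable g ν) {B : Set β}
    (hB : MeasurableSet B) : ∫ a in S ⁻¹' B, g (S a) ∂μ = ∫ b in B, g b ∂ν :=
  integral_comp_mp (hS.restrict_preimage hB) hg.restrict

/-- the averages of `F` converge to the conditional expectation -/
def Good (μ : Measure α) (T : Z2 → α → α) (F : α → ℝ) : Prop :=
  ∀ᵐ a ∂μ, BoxLim (fun w => F (T w a)) ((μ[F|invS T]) a)

theorem Good.congr (hmp : ∀ x, MeasurePreserving (T x) μ μ) {F G : α → ℝ} (h : Good μ T F)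
    (hFG : F =ᵐ[μ] G) : Good μ T G := by
  filter_upwards [h, ae_shift hmp hFG, condExp_congr_ae (m := invS T) hFG] with a h1 h2 h3
  rw [← h3, ← funext h2]
  exact h1

theorem Good.add {F G : α → ℝ} (hF : Integrable F μ) (hG : Integrable G μ) (h : Good μ T F)
    (h' : Good μ T G) : Good μ T (F + G) := by
  filter_upwards [h, h', condExp_add hF hG (invS T)] with a h1 h2 h3
  rw [h3]
  exact boxLim_add h1 h2

theorem Good.smul {F : α → ℝ} (h : Good μ T F) (r : ℝ) : Good μ T (r • F) := by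
  filter_upwards [h, condExp_smul r F (invS T)] with a h1 h3
  rw [h3]
  exact boxLim_smul h1 r

variable [IsFiniteMeasure μ]

theorem good_of_inv (h0 : ∀ a, T 0 a = a) (hadd : ∀ x y a, T (x + y) a = T x (T y a))
    (hmp : ∀ x, MeasurePreserving (T x) μ μ) {F : α → ℝ} (hF : Integrable F μ)
    (hinv : ∀ w, (fun a => F (T w a)) =ᵐ[μ] F) : Good μ T F := by
  set F0 := hF.aemeasurable.mk F with hF0
  have hm0 : Measurable F0 := hF.aemeasurable.measurable_mk
  have he0 : F =ᵐ[μ] F0 := hF.aemeasurable.ae_eq_mk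
  set Z : Set α := {a | ∀ w, F0 (T w a) = F0 a} with hZ
  have hZm : MeasurableSet Z := by
    rw [hZ, Set.ofPred_forall]
    exact MeasurableSet.iInter fun w => measurableSet_eq_fun (hm0.comp (hmp w).measurable) hm0
  have hZa : ∀ᵐ a ∂μ, a ∈ Z := by
    filter_upwards [ae_all_iff.2 hinv, ae_shift hmp he0, he0] with a h1 h2 h3 w
    rw [← h2 w, h1 w, h3]
  have hZf : ∀ v a, a ∈ Z → T v a ∈ Z := by
    intro v a ha w
    rw [← hadd, ha, ha]
  have hZi : ∀ v a, T v a ∈ Z ↔ a ∈ Z := by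
    intro v a
    refine ⟨fun h => ?_, hZf v a⟩
    have := hZf (-v) _ h
    rwa [← hadd, neg_add_cancel, h0] at this
  set F1 := Z.indicator F0 with hF1
  have hm1 : Measurable F1 := hm0.indicator hZm
  have hi1 : ∀ w a, F1 (T w a) = F1 a := by
    intro w a
    by_cases ha : a ∈ Z
    · rw [hF1, Set.indicator_of_mem ha, Set.indicator_of_mem (hZf w a ha), ha w]
    · rw [hF1, Set.indicator_of_notMem ha, Set.indicator_of_notMem (mt (hZi w a).1 ha)]
  have he1 : F1 =ᵐ[μ] F := by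
    filter_upwards [hZa, he0] with a h1 h2
    rw [hF1, Set.indicator_of_mem h1, h2]
  refine Good.congr hmp ?_ he1
  have hc : μ[F1|invS T] = F1 :=
    condExp_of_stronglyMeasurable (invS_le T) (measurable_invS hm1 hi1).stronglyMeasurable
      (hF.congr he1.symm)
  refine Eventually.of_forall fun a => ?_
  rw [hc]
  simp only [hi1]
  exact boxLim_const _

theorem good_cob (hadd : ∀ x y a, T (x + y) a = T x (T y a))
    (hmp : ∀ x, MeasurePreserving (T x) μ μ) {g : α → ℝ} (hg : Measurable g) (M : ℝ)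
    (hM : ∀ a, |g a| ≤ M) (e : Z2) : Good μ T fun a => g (T e a) - g a := by
  have hi : Integrable g μ := Integrable.of_bound hg.aestronglyMeasurable M
    (Eventually.of_forall hM)
  have hi' : Integrable (fun a => g (T e a)) μ := (hmp e).integrable_comp_of_integrable hi
  have hc : (fun _ => (0 : ℝ)) =ᵐ[μ] μ[fun a => g (T e a) - g a|invS T] := by
    refine ae_eq_condExp_of_forall_setIntegral_eq (invS_le T) (hi'.sub hi)
      (fun s _ _ => integrableOn_zero) (fun s hs _ => ?_) aestronglyMeasurable_const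
    rw [integral_sub hi'.integrableOn hi.integrableOn]
    have := setIntegral_comp_mp (hmp e) hi.aestronglyMeasurable hs.1
    rw [hs.2 e] at this
    simp [this]
  filter_upwards [hc] with a ha
  rw [← ha]
  simp only [← hadd]
  exact boxLim_cob (fun w => g (T w a)) M (fun w => hM _) e

omit [IsFiniteMeasure μ] in
theorem good_of_approx (hadd : ∀ x y a, T (x + y) a = T x (T y a))
    (hmp : ∀ x, MeasurePreserving (T x) μ μ) {F : α → ℝ} (hF : Integrable F μ)
    (h : ∀ ε : ℝ≥0∞, 0 < ε → ∃ F' : α → ℝ, Integrable F' μ ∧ Good μ T F' ∧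
      eLpNorm (F - F') 1 μ ≤ ε) : Good μ T F := by
  have hpos : ∀ n : ℕ, (0 : ℝ≥0∞) < ((n : ℝ≥0∞) + 1)⁻¹ := fun n =>
    ENNReal.inv_pos.2 (by simp)
  choose G hGi hGg hGe using fun n : ℕ => h _ (hpos n)
  have hD : ∀ n, Integrable (F - G n) μ := fun n => hF.sub (hGi n)
  set D : ℕ → α → ℝ := fun n => (hD n).aemeasurable.mk (F - G n) with hDdef
  have hDm : ∀ n, Measurable (D n) := fun n => (hD n).aemeasurable.measurable_mk
  have hDe : ∀ n, (F - G n) =ᵐ[μ] D n := fun n => (hD n).aemeasurable.ae_eq_mk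
  have key : ∀ δ : ℝ, 0 < δ → ∀ᵐ a ∂μ, ∃ n, |(μ[F - G n|invS T]) a| ≤ δ ∧
      ∀ u : ℕ, ∑ w ∈ box 0 u, |D n (T w a)| ≤ δ * (2 * (u : ℝ) + 1) ^ 2 := by
    intro δ hδ
    set lam := ENNReal.ofReal δ with hlam
    have hl0 : lam ≠ 0 := by simpa [hlam] using hδ
    have hb : ∀ n : ℕ, lam * μ {a | ¬ ∃ n, |(μ[F - G n|invS T]) a| ≤ δ ∧
        ∀ u : ℕ, ∑ w ∈ box 0 u, |D n (T w a)| ≤ δ * (2 * (u : ℝ) + 1) ^ 2} ≤
        17 * ((n : ℝ≥0∞) + 1)⁻¹ := by
      intro n
      have h1 := maximal μ T hadd hmp (fun a => ‖D n a‖ₑ) (hDm n).enorm lam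
      have h1' : ∫⁻ a, ‖D n a‖ₑ ∂μ ≤ ((n : ℝ≥0∞) + 1)⁻¹ := by
        rw [← eLpNorm_one_eq_lintegral_enorm, ← eLpNorm_congr_ae (hDe n)]
        exact hGe n
      have h2 := mul_meas_ge_le_lintegral₀ (μ := μ) (f := fun a => ‖(μ[F - G n|invS T]) a‖ₑ)
        integrable_condExp.aemeasurable.enorm lam
      have h2' : ∫⁻ a, ‖(μ[F - G n|invS T]) a‖ₑ ∂μ ≤ ((n : ℝ≥0∞) + 1)⁻¹ := by
        rw [← eLpNorm_one_eq_lintegral_enorm]
        exact (eLpNorm_condExp_le_eLpNorm _ le_rfl).trans (hGe n)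
      have hsub : {a | ¬ ∃ n, |(μ[F - G n|invS T]) a| ≤ δ ∧
          ∀ u : ℕ, ∑ w ∈ box 0 u, |D n (T w a)| ≤ δ * (2 * (u : ℝ) + 1) ^ 2} ⊆
          {a | ∃ u : ℕ, lam * (((2 * u + 1) ^ 2 : ℕ) : ℝ≥0∞) < ∑ w ∈ box 0 u, ‖D n (T w a)‖ₑ} ∪
          {a | lam ≤ ‖(μ[F - G n|invS T]) a‖ₑ} := by
        intro a ha
        by_contra hcon
        simp only [Set.mem_union, Set.mem_ofPred_eq, not_or, not_exists, not_lt, not_le] at hcon
        refine ha ⟨n, ?_, fun u => ?_⟩
        · have := hcon.2.le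
          rwa [Real.enorm_eq_ofReal_abs, hlam, ENNReal.ofReal_le_ofReal_iff hδ.le] at this
        · have := hcon.1 u
          simp only [Real.enorm_eq_ofReal_abs] at this
          rw [← ENNReal.ofReal_sum_of_nonneg (fun _ _ => abs_nonneg _), hlam,
            ← ENNReal.ofReal_natCast, ← ENNReal.ofReal_mul hδ.le,
            ENNReal.ofReal_le_ofReal_iff (by positivity)] at this
          exact_mod_cast this
      calc _ ≤ lam * (μ {a | ∃ u : ℕ, lam * (((2 * u + 1) ^ 2 : ℕ) : ℝ≥0∞) <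
              ∑ w ∈ box 0 u, ‖D n (T w a)‖ₑ} + μ {a | lam ≤ ‖(μ[F - G n|invS T]) a‖ₑ}) := by
            gcongr
            exact (measure_mono hsub).trans (measure_union_le _ _)
        _ ≤ 16 * ((n : ℝ≥0∞) + 1)⁻¹ + ((n : ℝ≥0∞) + 1)⁻¹ := by
            rw [mul_add]
            exact add_le_add (h1.trans (by gcongr)) (h2.trans h2')
        _ = _ := by ring
    have hlim : Tendsto (fun n : ℕ => 17 * ((n : ℝ≥0∞) + 1)⁻¹) atTop (𝓝 0) := by
      have h1 : Tendsto (fun n : ℕ => ((n : ℝ≥0∞) + 1)⁻¹) atTop (𝓝 0) := by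
        have := ENNReal.tendsto_inv_nat_nhds_zero.comp (tendsto_add_atTop_nat 1)
        refine this.congr fun n => ?_
        simp
      simpa using ENNReal.Tendsto.const_mul h1 (Or.inr (by simp : (17 : ℝ≥0∞) ≠ ∞))
    have h0 := ge_of_tendsto' hlim hb
    rw [nonpos_iff_eq_zero, mul_eq_zero] at h0
    exact h0.resolve_left hl0
  have hk : ∀ᵐ a ∂μ, ∀ k : ℕ, ∃ n, |(μ[F - G n|invS T]) a| ≤ 1 / ((k : ℝ) + 1) ∧
      ∀ u : ℕ, ∑ w ∈ box 0 u, |D n (T w a)| ≤ 1 / ((k : ℝ) + 1) * (2 * (u : ℝ) + 1) ^ 2 :=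
    ae_all_iff.2 fun k => key _ (by positivity)
  filter_upwards [hk, ae_all_iff.2 hGg, ae_all_iff.2 fun n => ae_shift hmp (hDe n),
    ae_all_iff.2 fun n => condExp_sub hF (hGi n) (invS T)] with a h1 h2 h3 h4
  refine boxLim_of_approx fun δ hδ => ?_
  obtain ⟨k, hk⟩ := exists_nat_one_div_lt hδ
  obtain ⟨n, h5, h6⟩ := h1 k
  refine ⟨_, _, h2 n, ?_, fun u => ?_⟩
  · rw [h4 n] at h5
    exact h5.trans hk.le
  · have : ∀ w, F (T w a) - G n (T w a) = D n (T w a) := fun w => h3 n w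
    simp only [this]
    refine (h6 u).trans ?_
    gcongr

theorem good_L2 (h0 : ∀ a, T 0 a = a) (hadd : ∀ x y a, T (x + y) a = T x (T y a))
    (hmp : ∀ x, MeasurePreserving (T x) μ μ) (f : Lp ℝ 2 μ) : Good μ T f := by
  have hint : ∀ f : Lp ℝ 2 μ, Integrable f μ := fun f => (Lp.memLp f).integrable one_le_two
  let V : Submodule ℝ (Lp ℝ 2 μ) :=
    { carrier := {f | Good μ T f}
      add_mem' := fun {f g} hf hg =>
        (Good.add (hint f) (hint g) hf hg).congr hmp (Lp.coeFn_add f g).symm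
      zero_mem' := good_of_inv h0 hadd hmp (hint 0) fun w => by
        filter_upwards [(hmp w).quasiMeasurePreserving.ae (Lp.coeFn_zero ℝ 2 μ),
          Lp.coeFn_zero ℝ 2 μ] with a h1 h2
        rw [h1, h2]; rfl
      smul_mem' := fun r f hf => (Good.smul hf r).congr hmp (Lp.coeFn_smul r f).symm }
  have hV : ∀ f, f ∈ V ↔ Good μ T f := fun _ => Iff.rfl
  have hclosed : IsClosed (V : Set (Lp ℝ 2 μ)) := by
    refine isClosed_of_closure_subset fun f hf => ?_
    refine good_of_approx hadd hmp (hint f) fun ε hε => ?_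
    set K : ℝ≥0∞ := μ Set.univ ^ (1 / (1 : ℝ≥0∞).toReal - 1 / (2 : ℝ≥0∞).toReal) with hK
    have hKt : K ≠ ∞ := ENNReal.rpow_ne_top_of_nonneg (by norm_num) (measure_ne_top _ _)
    have hK1 : K + 1 ≠ ∞ := by simpa using hKt
    obtain ⟨g, hg, hfg⟩ := EMetric.mem_closure_iff.1 hf (ε / (K + 1))
      (ENNReal.div_pos hε.ne' hK1)
    refine ⟨g, hint g, hg, ?_⟩
    rw [Lp.edist_def] at hfg
    calc eLpNorm (⇑f - ⇑g) 1 μ ≤ eLpNorm (⇑f - ⇑g) 2 μ * K :=
          eLpNorm_le_eLpNorm_mul_rpow_measure_univ one_le_two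
            ((hint f).sub (hint g)).aestronglyMeasurable
      _ ≤ ε / (K + 1) * (K + 1) := by gcongr; exact le_self_add
      _ = ε := ENNReal.div_mul_cancel (by simp) hK1
  have : CompleteSpace V := hclosed.completeSpace_coe
  have hbot : Vᗮ = ⊥ := by
    rw [Submodule.eq_bot_iff]
    intro h hh
    have hset : ∀ e A, MeasurableSet A → ∫ a in T e ⁻¹' A, h a ∂μ = ∫ a in A, h a ∂μ := by
      intro e A hA
      have hA' : MeasurableSet (T e ⁻¹' A) := (hmp e).measurable hA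
      have hmem : indicatorConstLp 2 hA' (measure_ne_top μ _) (1 : ℝ) -
          indicatorConstLp 2 hA (measure_ne_top μ _) (1 : ℝ) ∈ V := by
        rw [hV]
        refine (good_cob hadd hmp (g := A.indicator fun _ => (1 : ℝ))
          (measurable_const.indicator hA) 1 (fun a => ?_) e).congr hmp ?_
        · by_cases ha : a ∈ A <;> simp [ha]
        · filter_upwards [Lp.coeFn_sub (indicatorConstLp 2 hA' (measure_ne_top μ _) (1 : ℝ))
            (indicatorConstLp 2 hA (measure_ne_top μ _) (1 : ℝ)),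
            indicatorConstLp_coeFn (p := 2) (hs := hA') (hμs := measure_ne_top μ _)
              (c := (1 : ℝ)),
            indicatorConstLp_coeFn (p := 2) (hs := hA) (hμs := measure_ne_top μ _)
              (c := (1 : ℝ))] with a h1 h2 h3
          rw [h1, Pi.sub_apply, h2, h3]
          rfl
      have := Submodule.inner_right_of_mem_orthogonal hmem hh
      rw [inner_sub_left, L2.inner_indicatorConstLp_one, L2.inner_indicatorConstLp_one] at this
      linarith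
    have hinv : ∀ e, (fun a => h (T e a)) =ᵐ[μ] h := by
      intro e
      refine Integrable.ae_eq_of_forall_setIntegral_eq _ _
        ((hmp e).integrable_comp_of_integrable (hint h)) (hint h) fun A hA _ => ?_
      have hB : MeasurableSet (T (-e) ⁻¹' A) := (hmp (-e)).measurable hA
      have e1 := setIntegral_comp_mp (hmp e) (hint h).aestronglyMeasurable hB
      have e2 : T e ⁻¹' (T (-e) ⁻¹' A) = A := by
        ext a
        simp only [Set.mem_preimage]
        rw [← hadd, neg_add_cancel, h0]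
      rw [e2] at e1
      rw [e1, hset _ _ hA]
    have hmem : h ∈ V := good_of_inv h0 hadd hmp (hint h) hinv
    exact inner_self_eq_zero.1 (Submodule.inner_right_of_mem_orthogonal hmem hh)
  have htop : V = ⊤ := Submodule.orthogonal_eq_bot_iff.1 hbot
  exact (hV f).1 (htop ▸ Submodule.mem_top)

theorem good_all (h0 : ∀ a, T 0 a = a) (hadd : ∀ x y a, T (x + y) a = T x (T y a))
    (hmp : ∀ x, MeasurePreserving (T x) μ μ) {F : α → ℝ} (hF : Integrable F μ) :
    Good μ T F := by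
  refine good_of_approx hadd hmp hF fun ε hε => ?_
  obtain ⟨g, hg, hg1⟩ := (memLp_one_iff_integrable.2 hF).exists_simpleFunc_eLpNorm_sub_lt
    (by simp) hε.ne'
  have hg2 : MemLp g 2 μ := g.memLp_of_isFiniteMeasure 2 μ
  exact ⟨g, memLp_one_iff_integrable.1 hg1,
    (good_L2 h0 hadd hmp (hg2.toLp g)).congr hmp hg2.coeFn_toLp, hg.le⟩

theorem et2 {α : Type*} [MeasurableSpace α] (μ : Measure α) [IsFiniteMeasure μ]
    (T : Z2 → α → α) (h0 : ∀ a, T 0 a = a) (hadd : ∀ x y a, T (x + y) a = T x (T y a))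
    (hmp : ∀ x, MeasurePreserving (T x) μ μ) (F : α → ℝ) (hF : Integrable F μ) :
    ∃ Fb : α → ℝ, Measurable Fb ∧ (∀ w a, Fb (T w a) = Fb a) ∧ Integrable Fb μ ∧
      (∀ B, MeasurableSet B → (∀ w, T w ⁻¹' B = B) → ∫ a in B, Fb a ∂μ = ∫ a in B, F a ∂μ) ∧
      ∀ᵐ a ∂μ, BoxLim (fun w => F (T w a)) (Fb a) := by
  have hm : Measurable[invS T] (μ[F|invS T]) := stronglyMeasurable_condExp.measurable
  exact ⟨μ[F|invS T], hm.mono (invS_le T) le_rfl, inv_of_measurable_invS hm, integrable_condExp,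
    fun B hB hi => setIntegral_condExp (invS_le T) hF ⟨hB, hi⟩, good_all h0 hadd hmp hF⟩

theorem et2_erg {α : Type*} [MeasurableSpace α] (μ : Measure α) [IsProbabilityMeasure μ]
    (T : Z2 → α → α) (h0 : ∀ a, T 0 a = a) (hadd : ∀ x y a, T (x + y) a = T x (T y a))
    (hmp : ∀ x, MeasurePreserving (T x) μ μ) (herg : ErgM T μ) (F : α → ℝ)
    (hF : Integrable F μ) : ∀ᵐ a ∂μ, BoxLim (fun w => F (T w a)) (∫ a, F a ∂μ) := by
  have hc : (fun _ => ∫ a, F a ∂μ) =ᵐ[μ] μ[F|invS T] := by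
    refine ae_eq_condExp_of_forall_setIntegral_eq (invS_le T) hF
      (fun s _ _ => (integrable_const _).integrableOn) (fun s hs _ => ?_)
      aestronglyMeasurable_const
    rcases herg s hs.1 hs.2 with h | h
    · rw [Measure.restrict_eq_zero.2 h]; simp
    · have : μ.restrict s = μ := Measure.restrict_eq_self_of_ae_mem h
      rw [this]; simp
  filter_upwards [hc, good_all h0 hadd hmp hF] with a h1 h2
  rw [← h1] at h2
  exact h2

theorem et1 {α : Type*} [MeasurableSpace α] (μ : Measure α) [IsFiniteMeasure μ]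
    (T : ℤ → α → α) (h0 : ∀ a, T 0 a = a) (hadd : ∀ x y a, T (x + y) a = T x (T y a))
    (hmp : ∀ x, MeasurePreserving (T x) μ μ) (F : α → ℝ) (hF : Integrable F μ) :
    ∃ Fb : α → ℝ, Measurable Fb ∧ (∀ w a, Fb (T w a) = Fb a) ∧ Integrable Fb μ ∧
      (∀ B, MeasurableSet B → (∀ w, T w ⁻¹' B = B) → ∫ a in B, Fb a ∂μ = ∫ a in B, F a ∂μ) ∧
      ∀ᵐ a ∂μ, IntLim (fun b => F (T b a)) (Fb a) := by
  obtain ⟨Fb, h1, h2, h3, h4, h5⟩ := et2 μ (fun w : Z2 => T w.1) h0
    (fun x y a => hadd x.1 y.1 a) (fun x => hmp x.1) F hF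
  refine ⟨Fb, h1, fun w a => h2 (w, 0) a, h3, fun B hB hi => h4 B hB fun w => hi w.1, ?_⟩
  filter_upwards [h5] with a ha
  exact intLim_of_boxLim (f := fun b => F (T b a)) ha

end ECub.Erg
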