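import Pool.Agent.P.MP_029dcd_co.F.Defs

/-! Layer E, limits of empirical measures. -/

set_option autoImplicit false

namespace ECub.Erg

open CubicStab MeasureTheory Filter Topology Finset
open scoped ENNReal

theorem emp_sh_cont {Y : Type} [TopologicalSpace Y] (w : Z2) :
    Continuous (sh w : (Z2 → Y) → Z2 → Y) :=
  continuous_pi fun x => continuous_apply (w + x)

theorem emp_sh_sh {Y : Type} (w y : Z2) (x : Z2 → Y) : sh w (sh y x) = sh (y + w) x := by
  funext z
  simp only [sh, add_assoc]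

/-- the empirical probability measure of finitely many points -/
theorem emp_exists_prob {X : Type} [TopologicalSpace X] [MeasurableSpace X] [BorelSpace X]
    [CompactSpace X] [T2Space X] (x0 : X) (S : Finset Z2) (p : Z2 → X) :
    ∃ P : ProbabilityMeasure X, S.Nonempty → ∀ Φ : C(X, ℝ),
      ∫ x, Φ x ∂(P : Measure X) = (∑ y ∈ S, Φ (p y)) / S.card := by
  by_cases hS : S.Nonempty
  · have hc : (S.card : ℝ≥0∞) ≠ 0 := by
      exact_mod_cast (Finset.card_pos.2 hS).ne'
    refine ⟨⟨(S.card : ℝ≥0∞)⁻¹ • ∑ y ∈ S, Measure.dirac (p y), ⟨?_⟩⟩, fun _ Φ => ?_⟩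
    · rw [Measure.smul_apply, Measure.finsetSum_apply]
      simp only [measure_univ, Finset.sum_const, nsmul_eq_mul, mul_one, smul_eq_mul]
      exact ENNReal.inv_mul_cancel hc (ENNReal.natCast_ne_top _)
    · change ∫ x, Φ x ∂((S.card : ℝ≥0∞)⁻¹ • ∑ y ∈ S, Measure.dirac (p y)) = _
      rw [integral_smul_measure, integral_finsetSum_measure]
      · simp only [ENNReal.toReal_inv, ENNReal.toReal_natCast, smul_eq_mul]
        rw [div_eq_inv_mul]
        congr 1
        refine Finset.sum_congr rfl fun y _ => ?_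
        exact integral_dirac' _ _ Φ.continuous.stronglyMeasurable
      · intro y _
        exact (BoundedContinuousFunction.mkOfCompact Φ).integrable _
  · exact ⟨⟨Measure.dirac x0, inferInstance⟩, fun h => absurd h hS⟩

/-- a translate of a finite set changes a bounded sum by at most the boundary -/
theorem emp_sum_shift (S : Finset Z2) (w : Z2) (f : Z2 → ℝ) (M : ℝ) (hf : ∀ y, |f y| ≤ M) :
    |∑ y ∈ S, f (y + w) - ∑ y ∈ S, f y| ≤ 2 * M * ((S.image (· + w)) \ S).card := by
  have hinj : Function.Injective fun y : Z2 => y + w := add_left_injective w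
  have h1 : ∑ y ∈ S, f (y + w) = ∑ y ∈ S.image (· + w), f y :=
    (Finset.sum_image (f := f) fun a _ b _ h => hinj h).symm
  have hcard : (S.image (· + w)).card = S.card := Finset.card_image_of_injective _ hinj
  have h2 : (S \ S.image (· + w)).card = ((S.image (· + w)) \ S).card :=
    Finset.card_sdiff_comm hcard.symm
  have h3 := Finset.sum_sdiff_sub_sum_sdiff (s₁ := S) (s₂ := S.image (· + w)) (f := f)
  have hb : ∀ T : Finset Z2, |∑ y ∈ T, f y| ≤ M * T.card := fun T => by
    refine (Finset.abs_sum_le_sum_abs _ _).trans ?_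
    refine (Finset.sum_le_sum fun y _ => hf y).trans ?_
    rw [Finset.sum_const, nsmul_eq_mul, mul_comm]
  rw [h1, ← h3]
  refine (abs_sub _ _).trans ?_
  have h4 := hb (S.image (· + w) \ S)
  have h5 := hb (S \ S.image (· + w))
  rw [h2] at h5
  linarith

theorem emp {Y : Type} [TopologicalSpace Y] [CompactSpace Y] [TopologicalSpace.MetrizableSpace Y]
    [MeasurableSpace Y] [BorelSpace Y] (𝒰 : Ultrafilter ℕ) (c : ℕ → Z2 → Y)
    (B : ℕ → Finset Z2) (hne : ∀ᶠ n in (𝒰 : Filter ℕ), (B n).Nonempty)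
    (hfol : ∀ w : Z2, Tendsto (fun n => ((((B n).image (· + w)) \ B n).card : ℝ) / (B n).card)
      𝒰 (𝓝 0)) :
    ∃ μ : Measure (Z2 → Y), IsProbabilityMeasure μ ∧
      (∀ w, MeasurePreserving (sh w) μ μ) ∧
      ∀ Φ : C(Z2 → Y, ℝ), Tendsto (fun n => (∑ y ∈ B n, Φ (sh y (c n))) / (B n).card) 𝒰
        (𝓝 (∫ x, Φ x ∂μ)) := by
  let _ : MetricSpace Y := TopologicalSpace.metrizableSpaceMetric Y
  have : SecondCountableTopology Y := inferInstance
  have : BorelSpace (Z2 → Y) := Pi.borelSpace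
  choose P hP using fun n => emp_exists_prob (c n) (B n) fun y => sh y (c n)
  obtain ⟨μ, -, hμ⟩ := isCompact_univ.ultrafilter_le_nhds (𝒰.map P) (by simp)
  have hT : Tendsto P 𝒰 (𝓝 μ) := hμ
  have hlim : ∀ Φ : C(Z2 → Y, ℝ),
      Tendsto (fun n => (∑ y ∈ B n, Φ (sh y (c n))) / (B n).card) 𝒰
        (𝓝 (∫ x, Φ x ∂(μ : Measure (Z2 → Y)))) := by
    intro Φ
    have h := ProbabilityMeasure.tendsto_iff_forall_integral_tendsto.1 hT
      (BoundedContinuousFunction.mkOfCompact Φ)
    refine h.congr' ?_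
    filter_upwards [hne] with n hn
    exact hP n hn Φ
  refine ⟨μ, inferInstance, fun w => ?_, hlim⟩
  have hc : Continuous (sh w : (Z2 → Y) → Z2 → Y) := emp_sh_cont w
  refine ⟨hc.measurable, ?_⟩
  refine ext_of_forall_integral_eq_of_IsFiniteMeasure fun f => ?_
  rw [integral_map hc.measurable.aemeasurable f.continuous.aestronglyMeasurable]
  have h1 := hlim (f.toContinuousMap.comp ⟨sh w, hc⟩)
  have h2 := hlim f.toContinuousMap
  have h3 : Tendsto (fun n => (∑ y ∈ B n, f (sh (y + w) (c n))) / (B n).card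
      - (∑ y ∈ B n, f (sh y (c n))) / (B n).card) 𝒰 (𝓝 0) := by
    have h4 := (hfol w).const_mul (2 * ‖f‖)
    rw [mul_zero] at h4
    refine squeeze_zero_norm (fun n => ?_) h4
    rw [← sub_div, Real.norm_eq_abs, abs_div, Nat.abs_cast, ← mul_div_assoc]
    refine div_le_div_of_nonneg_right ?_ (Nat.cast_nonneg _)
    exact emp_sum_shift (B n) w (fun y => f (sh y (c n))) ‖f‖ fun y => f.norm_coe_le_norm _
  have h5 := h1.sub h2
  have h6 : Tendsto (fun n => (∑ y ∈ B n, f (sh (y + w) (c n))) / (B n).card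
      - (∑ y ∈ B n, f (sh y (c n))) / (B n).card) 𝒰
      (𝓝 (∫ x, f (sh w x) ∂(μ : Measure (Z2 → Y)) - ∫ x, f x ∂(μ : Measure (Z2 → Y)))) := by
    refine h5.congr fun n => ?_
    simp only [ContinuousMap.comp_apply, ContinuousMap.coe_mk, emp_sh_sh]
    rfl
  exact sub_eq_zero.1 (tendsto_nhds_unique h6 h3)

end ECub.Erg
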