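import Pool.Agent.P.MP_029dcd_co.F.Defs

/-! Layer E, the measures on labels of a system. -/

set_option autoImplicit false

namespace ECub.Erg

open CubicStab MeasureTheory Filter Topology Finset
open scoped ENNReal

theorem measurableSet_can (S : Sys) (i : Fin 3) :
    MeasurableSet {x : S.Ω × ℕ | (S.Γ x.1).Can i (0, x.2)} := by
  refine measurableSet_setOfPred.2 (measurable_from_prod_countable_left fun j => ?_)
  have h1 : Measurable fun ω => j < (S.Γ ω).g 0 :=
    (measurable_of_countable fun n : ℕ => j < n).comp (S.meas.g 0)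
  have h2 : Measurable fun ω => (S.Γ ω).fam (0, j) = i :=
    (measurable_of_countable fun n : Fin 3 => n = i).comp (S.meas.fam (0, j))
  have h3 : Measurable fun ω => (S.Γ ω).can (0, j) = true :=
    (measurable_of_countable fun n : Bool => n = true).comp (S.meas.can (0, j))
  exact h1.and (h2.and h3)

open Classical in
theorem lintegral_mh (S : Sys) (i : Fin 3) (F : S.Ω × ℕ → ℝ≥0∞) (hF : Measurable F) :
    ∫⁻ x, F x ∂(S.mh i) =
      ∫⁻ ω, ∑' j : ℕ, (if (S.Γ ω).Can i (0, j) then F (ω, j) else 0) ∂S.μ := by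
  rw [Sys.mh, ← lintegral_indicator (measurableSet_can S i),
    lintegral_prod _ (hF.indicator (measurableSet_can S i)).aemeasurable]
  refine lintegral_congr fun ω => ?_
  rw [lintegral_count]
  refine tsum_congr fun j => ?_
  simp only [Set.indicator_apply, Set.mem_ofPred_eq]

theorem mh_finite (S : Sys) (i : Fin 3) : IsFiniteMeasure (S.mh i) := by
  classical
  obtain ⟨F, -, hi, hb⟩ := S.int
  refine ⟨?_⟩
  rw [← lintegral_one, lintegral_mh S i _ measurable_const]
  refine lt_of_le_of_lt (lintegral_mono fun ω => le_trans ?_ (hb ω).1) hi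
  rw [tsum_eq_sum (s := range ((S.Γ ω).g 0)) fun j hj => if_neg fun h => hj (mem_range.2 h.1)]
  refine le_trans (sum_le_sum (g := fun _ => 1) fun j _ => ?_) (by simp)
  split_ifs <;> simp

theorem measurableSet_pm (S : Sys) (i j : Fin 3) :
    MeasurableSet {x : S.Ω × ℕ × ℕ | (S.Γ x.1).cr 0 x.2.1 x.2.2 = true ∧
      (S.Γ x.1).fam (0, x.2.1) = i ∧ (S.Γ x.1).fam (0, x.2.2) = j ∧
      (S.Γ x.1).t (0, x.2.1) ≠ (S.Γ x.1).t (0, x.2.2)} := by
  refine measurableSet_setOfPred.2 (measurable_from_prod_countable_left fun p => ?_)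
  have h1 : Measurable fun ω => (S.Γ ω).cr 0 p.1 p.2 = true :=
    (measurable_of_countable fun n : Bool => n = true).comp (S.meas.cr 0 p.1 p.2)
  have h2 : ∀ a k, Measurable fun ω => (S.Γ ω).fam (0, a) = k := fun a k =>
    (measurable_of_countable fun n : Fin 3 => n = k).comp (S.meas.fam (0, a))
  have h3 : Measurable fun ω => (S.Γ ω).t (0, p.1) = (S.Γ ω).t (0, p.2) :=
    measurableSet_setOfPred.1 (measurableSet_eq_fun (S.meas.t _) (S.meas.t _))
  exact h1.and ((h2 p.1 i).and ((h2 p.2 j).and h3.not))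

theorem measurableSet_tp (S : Sys) : MeasurableSet {ω | (S.Γ ω).tp 0 = true} :=
  S.meas.tp 0 (measurableSet_singleton true)

theorem pm_finite (S : Sys) (i j : Fin 3) : IsFiniteMeasure (S.pm i j) := by
  obtain ⟨F, -, hi, hb⟩ := S.int
  refine ⟨?_⟩
  rw [Sys.pm, Measure.restrict_apply_univ, Measure.prod_apply (measurableSet_pm S i j)]
  refine lt_of_le_of_lt (lintegral_mono fun ω => le_trans ?_ (hb ω).2.1) hi
  have hm : MeasurableSet {p : ℕ × ℕ | (S.Γ ω).cr 0 p.1 p.2 = true} :=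
    (Set.to_countable _).measurableSet
  refine le_trans (measure_mono (t := {p : ℕ × ℕ | (S.Γ ω).cr 0 p.1 p.2 = true})
    fun p hp => hp.1) (le_of_eq ?_)
  rw [← lintegral_indicator_one hm, lintegral_prod _ (measurable_of_countable _).aemeasurable,
    Gal.ncr, ENNReal.tsum_prod', lintegral_count]
  refine tsum_congr fun a => ?_
  rw [lintegral_count]
  refine tsum_congr fun b => ?_
  simp only [Set.indicator_apply, Set.mem_ofPred_eq, Pi.one_apply]

theorem measurable_tx (S : Sys) (i : Fin 3) : Measurable fun ω => S.tx ω i := by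
  exact measurable_id.prodMk (S.meas.tl 0 i)

theorem measurable_sl (S : Sys) : Measurable S.sl := by
  exact measurable_from_prod_countable_left fun j => S.meas.t (0, j)

theorem measurableSet_TA (S : Sys) {A : Set (S.Ω × ℕ)} (hA : MeasurableSet A) :
    MeasurableSet (S.TA A) := by
  refine (measurableSet_tp S).inter ?_
  show MeasurableSet {ω | ∀ i, S.tx ω i ∈ A}
  rw [Set.ofPred_forall]
  exact MeasurableSet.iInter fun i => measurable_tx S i hA

theorem map_tx_le (S : Sys) (i : Fin 3) :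
    (S.μ.restrict {ω | (S.Γ ω).tp 0 = true}).map (fun ω => S.tx ω i) ≤ S.mh i := by
  classical
  refine Measure.le_iff.2 fun B hB => ?_
  rw [Measure.map_apply (measurable_tx S i) hB, Measure.restrict_apply (measurable_tx S i hB),
    ← lintegral_indicator_one hB, lintegral_mh S i _ (measurable_one.indicator hB),
    ← lintegral_indicator_one ((measurable_tx S i hB).inter (measurableSet_tp S))]
  refine lintegral_mono fun ω => ?_
  by_cases h : ω ∈ (fun ω => S.tx ω i) ⁻¹' B ∩ {ω | (S.Γ ω).tp 0 = true}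
  swap
  · rw [Set.indicator_of_notMem h]
    exact zero_le
  rw [Set.indicator_of_mem h]
  refine le_trans (le_of_eq ?_) (ENNReal.le_tsum ((S.Γ ω).tl 0 i))
  rw [if_pos (show (S.Γ ω).Can i (0, (S.Γ ω).tl 0 i) from (S.ax ω).tp_can 0 h.2 i),
    Set.indicator_of_mem (show (ω, (S.Γ ω).tl 0 i) ∈ B from h.1)]
  rfl

/-- canonical labels seen from another cell -/
theorem can_shift (S : Sys) (i : Fin 3) (ω : S.Ω) (w x : Z2) (j : ℕ) :
    (S.Γ (S.T w ω)).Can i (x, j) ↔ (S.Γ ω).Can i (w + x, j) := by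
  have h := S.shift ω w
  simp only [Gal.Can, Gal.valid, h.g, h.fam, h.can]

theorem ae_gal (S : Sys) (i : Fin 3) (p : S.Ω × ℕ → Prop) (hp : ∀ᵐ x ∂(S.mh i), p x) :
    ∀ᵐ ω ∂S.μ, ∀ l, (S.Γ ω).Can i l → p (S.T l.1 ω, l.2) := by
  rw [Sys.mh, ae_restrict_iff' (measurableSet_can S i)] at hp
  have h1 : ∀ᵐ ω ∂S.μ, ∀ j, (S.Γ ω).Can i (0, j) → p (ω, j) :=
    (Measure.ae_ae_of_ae_prod hp).mono fun ω h => Measure.ae_count_iff.1 h
  filter_upwards [ae_all_iff.2 fun w => (S.mp w).quasiMeasurePreserving.ae h1] with ω h l hl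
  refine h l.1 l.2 ((can_shift S i ω l.1 0 l.2).2 ?_)
  rwa [add_zero]

/-- the converse direction: from almost every galaxy to almost every canonical label -/
theorem ae_mh (S : Sys) (i : Fin 3) (p : S.Ω × ℕ → Prop)
    (hp : ∀ᵐ ω ∂S.μ, ∀ j, (S.Γ ω).Can i (0, j) → p (ω, j)) : ∀ᵐ x ∂(S.mh i), p x := by
  rw [Sys.mh, ae_restrict_iff' (measurableSet_can S i)]
  filter_upwards [(Measure.quasiMeasurePreserving_fst (μ := S.μ)
    (ν := (Measure.count : Measure ℕ))).ae hp] with x h hx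
  exact h x.2 hx

theorem mp_mh (S : Sys) (D : Dyn) (π : D.Ω → S.Ω) (h : D.Fac S.toDyn π) (i : Fin 3) :
    MeasurePreserving (fun x : D.Ω × ℕ => (π x.1, x.2)) ((S.pull D π h).mh i) (S.mh i) := by
  exact (h.mp.prod (MeasurePreserving.id (Measure.count : Measure ℕ))).restrict_preimage
    (measurableSet_can S i)

theorem mp_pm (S : Sys) (D : Dyn) (π : D.Ω → S.Ω) (h : D.Fac S.toDyn π) (i j : Fin 3) :
    MeasurePreserving (fun x : D.Ω × ℕ × ℕ => (π x.1, x.2)) ((S.pull D π h).pm i j)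
      (S.pm i j) := by
  exact (h.mp.prod (MeasurePreserving.id
    ((Measure.count : Measure ℕ).prod (Measure.count : Measure ℕ)))).restrict_preimage
    (measurableSet_pm S i j)

theorem lineFn_pull {S : Sys} {β : Type*} {F : S.Ω × ℕ → β} (hF : S.LineFn F) (D : Dyn)
    (π : D.Ω → S.Ω) (h : D.Fac S.toDyn π) : (S.pull D π h).LineFn (pullF π F) := by
  filter_upwards [h.mp.quasiMeasurePreserving.ae hF] with ω hω l l' h1 h2 h3
  have := hω l l' h1 h2 h3
  simp only [Sys.ev, ← h.comm] at this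
  exact this

theorem lineSet_pull {S : Sys} {A : Set (S.Ω × ℕ)} (hA : S.LineSet A) (D : Dyn)
    (π : D.Ω → S.Ω) (h : D.Fac S.toDyn π) : (S.pull D π h).LineSet (pullS π A) := by
  exact ⟨((h.mp.measurable.comp measurable_fst).prodMk measurable_snd) hA.1,
    lineFn_pull hA.2 D π h⟩

theorem lin_pull {S : Sys} {Λ : (ℝ × ℝ) ≃L[ℝ] (ℝ × ℝ)} (hΛ : S.Lin Λ) (D : Dyn)
    (π : D.Ω → S.Ω) (h : D.Fac S.toDyn π) : (S.pull D π h).Lin Λ := by
  exact ⟨hΛ.e1, hΛ.e2, h.mp.quasiMeasurePreserving.ae hΛ.lin⟩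

end ECub.Erg
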