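import Pool.Agent.P.MP_029dcd_co.F.E.ET
import Pool.Agent.P.MP_029dcd_co.F.E.SysB

/-! Layer E, the ergodic theorem along lines. -/

set_option autoImplicit false

namespace ECub.Erg

open CubicStab MeasureTheory Filter Topology Finset
open scoped ENNReal

theorem idx_add (i : Fin 3) (w x : Z2) : idx i (w + x) = idx i w + idx i x := by
  unfold idx; split_ifs <;> rfl

theorem idx_zero (i : Fin 3) : idx i 0 = 0 := by
  unfold idx; split_ifs <;> rfl

theorem oth_zero (i : Fin 3) : oth i 0 = 0 := by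
  unfold oth; split_ifs <;> rfl

section Gal

variable {G : Gal} {k : ℕ} {C : ℝ}

theorem at_spec (hax : G.Ax k C) {l : Lb} (hl : G.valid l) (b : ℤ) :
    G.Can (G.fam l) (G.at' l b) ∧ G.same l (G.at' l b) = true ∧
      idx (G.fam l) (G.at' l b).1 = b := by
  have h : ∃ l', G.valid l ∧ G.Can (G.fam l) l' ∧ G.same l l' = true ∧
      idx (G.fam l) l'.1 = b := by
    obtain ⟨l', h⟩ := hax.can_ex l hl b
    exact ⟨l', hl, h⟩
  rw [Gal.at', dif_pos h]
  exact h.choose_spec.2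

theorem at_eq (hax : G.Ax k C) {l l' : Lb} (hl : G.valid l) {b : ℤ}
    (h1 : G.Can (G.fam l) l') (h2 : G.same l l' = true) (h3 : idx (G.fam l) l'.1 = b) :
    G.at' l b = l' := by
  obtain ⟨e1, e2, e3⟩ := at_spec hax hl b
  exact hax.can_uniq _ _ _ e1 h1
    (hax.same_trans _ _ _ e1.1 hl h1.1 (hax.same_symm _ _ hl e1.1 e2) h2) (e3.trans h3.symm)

theorem at_invalid {l : Lb} (hl : ¬ G.valid l) (b : ℤ) : G.at' l b = l := by
  rw [Gal.at', dif_neg]
  rintro ⟨l', h, -⟩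
  exact hl h

theorem at_eq_iff (hax : G.Ax k C) (l l' : Lb) (b : ℤ) :
    G.at' l b = l' ↔ (G.valid l ∧ G.Can (G.fam l) l' ∧ G.same l l' = true ∧
      idx (G.fam l) l'.1 = b) ∨ (¬ G.valid l ∧ l = l') := by
  by_cases hl : G.valid l
  · constructor
    · rintro rfl
      exact Or.inl ⟨hl, at_spec hax hl b⟩
    · rintro (⟨-, h1, h2, h3⟩ | ⟨h, -⟩)
      · exact at_eq hax hl h1 h2 h3
      · exact absurd hl h
  · rw [at_invalid hl]
    simp [hl]

theorem at_same (hax : G.Ax k C) {l l' : Lb} (hl : G.valid l) (hl' : G.valid l')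
    (h : G.same l l' = true) (b : ℤ) : G.at' l b = G.at' l' b := by
  obtain ⟨e1, e2, e3⟩ := at_spec hax hl' b
  have hf : G.fam l = G.fam l' := hax.same_fam l l' hl hl' h
  exact at_eq hax hl (hf ▸ e1) (hax.same_trans _ _ _ hl hl' e1.1 h e2) (hf ▸ e3)

theorem at_at (hax : G.Ax k C) {l : Lb} (hl : G.valid l) (b b' : ℤ) :
    G.at' (G.at' l b) b' = G.at' l b' := by
  obtain ⟨e1, e2, -⟩ := at_spec hax hl b
  exact (at_same hax hl e1.1 e2 b').symm

theorem at_self (hax : G.Ax k C) {i : Fin 3} {l : Lb} (hl : G.Can i l) :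
    G.at' l (idx i l.1) = l := by
  obtain ⟨h1, rfl, h3⟩ := hl
  exact at_eq hax h1 ⟨h1, rfl, h3⟩ (hax.same_refl l h1) rfl

end Gal

variable (S : Sys)

/-- the point of `Ω × ℕ` given by a label of the galaxy of `ω` -/
def pt (ω : S.Ω) (l : Lb) : S.Ω × ℕ := (S.T l.1 ω, l.2)

theorem pt_zero (ω : S.Ω) (j : ℕ) : pt S ω (0, j) = (ω, j) := by
  simp [pt, S.T_zero]

theorem pt_shift (ω : S.Ω) (w x : Z2) (j : ℕ) : pt S (S.T w ω) (x, j) = pt S ω (w + x, j) := by
  simp only [pt]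
  rw [add_comm w x, S.T_add]

theorem valid_shift (ω : S.Ω) (w x : Z2) (j : ℕ) :
    (S.Γ (S.T w ω)).valid (x, j) ↔ (S.Γ ω).valid (w + x, j) := by
  simp only [Gal.valid, (S.shift ω w).g]

/-- move along the line to the canonical label `b` steps further -/
noncomputable def mv (b : ℤ) (x : S.Ω × ℕ) : S.Ω × ℕ := pt S x.1 ((S.Γ x.1).at' (0, x.2) b)

theorem mv_pt (ω : S.Ω) {l : Lb} (hl : (S.Γ ω).valid l) (b : ℤ) :
    mv S b (pt S ω l) = pt S ω ((S.Γ ω).at' l (idx ((S.Γ ω).fam l) l.1 + b)) := by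
  obtain ⟨w, j⟩ := l
  have hv : (S.Γ (S.T w ω)).valid (0, j) := by rwa [valid_shift, add_zero]
  obtain ⟨e1, e2, e3⟩ := at_spec (S.ax (S.T w ω)) hv b
  have hf : (S.Γ (S.T w ω)).fam (0, j) = (S.Γ ω).fam (w, j) := by
    rw [(S.shift ω w).fam, add_zero]
  change pt S (S.T w ω) ((S.Γ (S.T w ω)).at' (0, j) b) = _
  generalize (S.Γ (S.T w ω)).at' (0, j) b = l' at e1 e2 e3
  obtain ⟨x, j'⟩ := l'
  rw [hf] at e1 e3
  rw [can_shift] at e1
  rw [(S.shift ω w).same, add_zero] at e2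
  rw [pt_shift, at_eq (S.ax ω) hl e1 e2 (by rw [idx_add]; exact congrArg _ e3)]

open Classical in
/-- the action of `ℤ` on the canonical labels of family `i` -/
noncomputable def sg (i : Fin 3) (b : ℤ) (x : S.Ω × ℕ) : S.Ω × ℕ :=
  if (S.Γ x.1).Can i (0, x.2) then mv S b x else x

theorem sg_pt {i : Fin 3} (ω : S.Ω) {l : Lb} (hl : (S.Γ ω).Can i l) (b : ℤ) :
    sg S i b (pt S ω l) = pt S ω ((S.Γ ω).at' l (idx i l.1 + b)) := by
  have h : (S.Γ (pt S ω l).1).Can i (0, (pt S ω l).2) := by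
    change (S.Γ (S.T l.1 ω)).Can i (0, l.2)
    rwa [can_shift, add_zero]
  rw [sg, if_pos h, mv_pt S ω hl.1, hl.2.1]

theorem sg_can {i : Fin 3} (ω : S.Ω) {j : ℕ} (hl : (S.Γ ω).Can i (0, j)) (b : ℤ) :
    sg S i b (ω, j) = pt S ω ((S.Γ ω).at' (0, j) b) := by
  rw [sg, if_pos hl]; rfl

theorem mv_zero {i : Fin 3} (ω : S.Ω) {j : ℕ} (hl : (S.Γ ω).Can i (0, j)) :
    mv S 0 (ω, j) = (ω, j) := by
  have := at_self (S.ax ω) hl
  rw [idx_zero] at this
  change pt S ω ((S.Γ ω).at' (0, j) 0) = _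
  rw [this, pt_zero]

theorem sg_zero (i : Fin 3) (x : S.Ω × ℕ) : sg S i 0 x = x := by
  unfold sg
  split_ifs with h
  · exact mv_zero S x.1 h
  · rfl

theorem sg_add (i : Fin 3) (b b' : ℤ) (x : S.Ω × ℕ) :
    sg S i (b + b') x = sg S i b (sg S i b' x) := by
  obtain ⟨ω, j⟩ := x
  by_cases h : (S.Γ ω).Can i (0, j)
  · obtain ⟨e1, e2, e3⟩ := at_spec (S.ax ω) h.1 b'
    rw [h.2.1] at e1 e3
    rw [sg_can S ω h, sg_can S ω h, sg_pt S ω e1, at_at (S.ax ω) h.1, e3, add_comm]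
  · simp [sg, h]

theorem measurable_pt : Measurable fun y : S.Ω × Lb => pt S y.1 y.2 :=
  measurable_from_prod_countable_left fun l =>
    (S.mp l.1).measurable.prodMk (measurable_const (a := l.2))

theorem measurable_valid (l : Lb) : Measurable fun ω => (S.Γ ω).valid l :=
  (measurable_of_countable fun n : ℕ => l.2 < n).comp (S.meas.g l.1)

theorem measurable_can (i : Fin 3) (l : Lb) : Measurable fun ω => (S.Γ ω).Can i l :=
  (measurable_valid S l).and
    (((measurable_of_countable fun n : Fin 3 => n = i).comp (S.meas.fam l)).and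
      ((measurable_of_countable fun n : Bool => n = true).comp (S.meas.can l)))

theorem measurable_same (l l' : Lb) : Measurable fun ω => (S.Γ ω).same l l' = true :=
  (measurable_of_countable fun n : Bool => n = true).comp (S.meas.same l l')

theorem measurable_at' (l : Lb) (b : ℤ) : Measurable fun ω => (S.Γ ω).at' l b := by
  refine measurable_to_countable' fun l' => ?_
  have h : (fun ω => (S.Γ ω).at' l b) ⁻¹' {l'} = {ω | ((S.Γ ω).valid l ∧
      (∃ i, (S.Γ ω).fam l = i ∧ (S.Γ ω).Can i l' ∧ idx i l'.1 = b) ∧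
      (S.Γ ω).same l l' = true) ∨ (¬ (S.Γ ω).valid l ∧ l = l')} := by
    ext ω
    simp only [Set.mem_preimage, Set.mem_singleton_iff, at_eq_iff (S.ax ω), Set.mem_ofPred_eq,
      exists_eq_left']
    tauto
  rw [h]
  refine measurableSet_setOfPred.2 (Measurable.or ((measurable_valid S l).and
    (Measurable.and (Measurable.exists fun i => ?_) (measurable_same S l l')))
    ((measurable_valid S l).not.and measurable_const))
  exact ((measurable_of_countable fun n : Fin 3 => n = i).comp (S.meas.fam l)).and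
    ((measurable_can S i l').and measurable_const)

theorem measurable_at (b : ℤ) : Measurable fun x : S.Ω × ℕ => (S.Γ x.1).at' (0, x.2) b :=
  measurable_from_prod_countable_left fun j => measurable_at' S (0, j) b

theorem measurable_mv (b : ℤ) : Measurable (mv S b) :=
  (measurable_pt S).comp (measurable_fst.prodMk (measurable_at S b))

theorem measurable_sg (i : Fin 3) (b : ℤ) : Measurable (sg S i b) := by
  classical
  exact Measurable.ite (measurableSet_can S i) (measurable_mv S b) measurable_id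

/-- `l'` is the canonical label `b` steps after the canonical label `l` -/
def Rel (i : Fin 3) (b : ℤ) (ω : S.Ω) (l l' : Lb) : Prop :=
  (S.Γ ω).Can i l ∧ (S.Γ ω).Can i l' ∧ (S.Γ ω).same l l' = true ∧ idx i l'.1 = idx i l.1 + b

theorem rel_right {i : Fin 3} {b : ℤ} {ω : S.Ω} {l : Lb} (hl : (S.Γ ω).Can i l) (l' : Lb) :
    Rel S i b ω l l' ↔ l' = (S.Γ ω).at' l (idx i l.1 + b) := by
  obtain ⟨h1, rfl, h3⟩ := hl
  constructor
  · rintro ⟨-, e1, e2, e3⟩
    exact (at_eq (S.ax ω) h1 e1 e2 e3).symm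
  · rintro rfl
    exact ⟨⟨h1, rfl, h3⟩, at_spec (S.ax ω) h1 _⟩

theorem rel_left {i : Fin 3} {b : ℤ} {ω : S.Ω} {l' : Lb} (hl : (S.Γ ω).Can i l') (l : Lb) :
    Rel S i b ω l l' ↔ l = (S.Γ ω).at' l' (idx i l'.1 - b) := by
  obtain ⟨h1, rfl, h3⟩ := hl
  constructor
  · rintro ⟨e1, -, e2, e3⟩
    exact (at_eq (S.ax ω) h1 e1 ((S.ax ω).same_symm _ _ e1.1 h1 e2) (by omega)).symm
  · rintro rfl
    obtain ⟨e1, e2, e3⟩ := at_spec (S.ax ω) h1 (idx ((S.Γ ω).fam l') l'.1 - b)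
    exact ⟨e1, ⟨h1, rfl, h3⟩, (S.ax ω).same_symm _ _ h1 e1.1 e2, by omega⟩

theorem rel_shift (i : Fin 3) (b : ℤ) (ω : S.Ω) (w x x' : Z2) (j j' : ℕ) :
    Rel S i b (S.T w ω) (x, j) (x', j') ↔ Rel S i b ω (w + x, j) (w + x', j') := by
  simp only [Rel, can_shift, (S.shift ω w).same, idx_add]
  constructor <;> rintro ⟨h1, h2, h3, h4⟩ <;> exact ⟨h1, h2, h3, by omega⟩

theorem measurable_rel (i : Fin 3) (b : ℤ) (l l' : Lb) :
    Measurable fun ω => Rel S i b ω l l' :=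
  (measurable_can S i l).and ((measurable_can S i l').and
    ((measurable_same S l l').and measurable_const))

theorem lintegral_sg (i : Fin 3) (b : ℤ) (F : S.Ω × ℕ → ℝ≥0∞) (hF : Measurable F) :
    ∫⁻ x, F (sg S i b x) ∂(S.mh i) = ∫⁻ x, F x ∂(S.mh i) := by
  classical
  set Φ : Lb → Lb → S.Ω → ℝ≥0∞ := fun l l' ω => if Rel S i b ω l l' then F (pt S ω l') else 0
    with hΦ
  have hΦm : ∀ l l', Measurable (Φ l l') := fun l l' =>
    Measurable.ite (measurableSet_setOfPred.2 (measurable_rel S i b l l'))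
      (hF.comp ((measurable_pt S).comp (measurable_id.prodMk measurable_const))) measurable_const
  have hL : ∀ ω, ∑' j : ℕ, (if (S.Γ ω).Can i (0, j) then F (sg S i b (ω, j)) else 0) =
      ∑' p : ℕ × Lb, Φ (0, p.1) p.2 ω := by
    intro ω
    rw [ENNReal.tsum_prod']
    refine tsum_congr fun j => ?_
    by_cases h : (S.Γ ω).Can i (0, j)
    · rw [if_pos h, tsum_eq_single ((S.Γ ω).at' (0, j) b), sg_can S ω h]
      · exact (if_pos ((rel_right S h _).2 (by simp [idx_zero]))).symm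
      · intro l' hl'
        exact if_neg fun hr => hl' (by simpa [idx_zero] using (rel_right S h _).1 hr)
    · rw [if_neg h]
      exact (ENNReal.tsum_eq_zero.2 fun l' => if_neg fun hr => h hr.1).symm
  have hR : ∀ ω, ∑' j : ℕ, (if (S.Γ ω).Can i (0, j) then F (ω, j) else 0) =
      ∑' p : ℕ × Lb, Φ p.2 (0, p.1) ω := by
    intro ω
    rw [ENNReal.tsum_prod']
    refine tsum_congr fun j => ?_
    by_cases h : (S.Γ ω).Can i (0, j)
    · rw [if_pos h, tsum_eq_single ((S.Γ ω).at' (0, j) (idx i 0 - b)), ← pt_zero S ω j]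
      · exact (if_pos ((rel_left S h _).2 rfl)).symm
      · intro l' hl'
        exact if_neg fun hr => hl' ((rel_left S h _).1 hr)
    · rw [if_neg h]
      exact (ENNReal.tsum_eq_zero.2 fun l' => if_neg fun hr => h hr.2.1).symm
  rw [lintegral_mh S i (fun x => F (sg S i b x)) (hF.comp (measurable_sg S i b)),
    lintegral_mh S i F hF]
  simp only [hL, hR]
  rw [lintegral_tsum fun p => (hΦm _ _).aemeasurable,
    lintegral_tsum fun p => (hΦm _ _).aemeasurable]
  let e : ℕ × Lb ≃ ℕ × Lb :=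
    { toFun := fun p => (p.2.2, (-p.2.1, p.1))
      invFun := fun p => (p.2.2, (-p.2.1, p.1))
      left_inv := fun p => by simp
      right_inv := fun p => by simp }
  rw [← e.tsum_eq fun p : ℕ × Lb => ∫⁻ ω, Φ p.2 (0, p.1) ω ∂S.μ]
  refine tsum_congr fun p => ?_
  obtain ⟨j, w, j'⟩ := p
  change ∫⁻ ω, Φ (0, j) (w, j') ω ∂S.μ = ∫⁻ ω, Φ (-w, j) (0, j') ω ∂S.μ
  rw [← (S.mp w).lintegral_comp (hΦm (-w, j) (0, j'))]
  refine lintegral_congr fun ω => ?_
  simp only [hΦ, rel_shift, pt_shift, add_neg_cancel, add_zero]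

theorem mp_sg (i : Fin 3) (b : ℤ) : MeasurePreserving (sg S i b) (S.mh i) (S.mh i) := by
  refine ⟨measurable_sg S i b, Measure.ext fun A hA => ?_⟩
  rw [← lintegral_indicator_one hA, lintegral_map (measurable_one.indicator hA)
    (measurable_sg S i b), lintegral_sg S i b _ (measurable_one.indicator hA),
    lintegral_indicator_one hA]

theorem line_et (i : Fin 3) (F : S.Ω × ℕ → ℝ) (hi : Integrable F (S.mh i)) :
    ∃ Fb : S.Ω × ℕ → ℝ, Measurable Fb ∧ S.LineFn Fb ∧ Integrable Fb (S.mh i) ∧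
      (∀ B, S.LineSet B → ∫ x in B, Fb x ∂(S.mh i) = ∫ x in B, F x ∂(S.mh i)) ∧
      ∀ᵐ ω ∂S.μ, ∀ l, (S.Γ ω).valid l → (S.Γ ω).fam l = i →
        IntLim (fun b => S.ev F ω ((S.Γ ω).at' l b)) (S.ev Fb ω l) := by
  classical
  have := mh_finite S i
  obtain ⟨F0, h1, h2, h3, h4, h5⟩ := et1 (S.mh i) (sg S i) (sg_zero S i) (sg_add S i)
    (mp_sg S i) F hi
  set Fb : S.Ω × ℕ → ℝ := fun x =>
    if (S.Γ x.1).valid (0, x.2) ∧ (S.Γ x.1).fam (0, x.2) = i then F0 (mv S 0 x) else 0 with hFb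
  have hm : Measurable Fb := by
    refine Measurable.ite (measurableSet_setOfPred.2
      (measurable_from_prod_countable_left fun j => ?_)) (h1.comp (measurable_mv S 0))
      measurable_const
    exact (measurable_valid S (0, j)).and
      ((measurable_of_countable fun n : Fin 3 => n = i).comp (S.meas.fam (0, j)))
  have hcond : ∀ ω (l : Lb), ((S.Γ (S.T l.1 ω)).valid (0, l.2) ∧
      (S.Γ (S.T l.1 ω)).fam (0, l.2) = i) ↔ ((S.Γ ω).valid l ∧ (S.Γ ω).fam l = i) := by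
    intro ω l
    rw [valid_shift, (S.shift ω l.1).fam, add_zero]
  have hin : ∀ ω l, (S.Γ ω).valid l → (S.Γ ω).fam l = i →
      S.ev Fb ω l = F0 (pt S ω ((S.Γ ω).at' l 0)) := by
    intro ω l hl hf
    obtain ⟨e1, e2, e3⟩ := at_spec (S.ax ω) hl 0
    rw [hf] at e1 e3
    have : S.ev Fb ω l = F0 (mv S 0 (pt S ω l)) := if_pos ((hcond ω l).2 ⟨hl, hf⟩)
    rw [this, mv_pt S ω hl, ← h2 (idx i l.1) (pt S ω ((S.Γ ω).at' l 0)), sg_pt S ω e1,
      at_at (S.ax ω) hl, e3, hf, add_zero, zero_add]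
  have hout : ∀ ω l, (S.Γ ω).fam l ≠ i → S.ev Fb ω l = 0 := fun ω l hf =>
    if_neg fun h => hf ((hcond ω l).1 h).2
  have hae : Fb =ᵐ[S.mh i] F0 := by
    refine ae_mh S i _ (Eventually.of_forall fun ω j hj => ?_)
    have : Fb (ω, j) = F0 (mv S 0 (ω, j)) := if_pos ⟨hj.1, hj.2.1⟩
    rw [this, mv_zero S ω hj]
  refine ⟨Fb, hm, Eventually.of_forall fun ω l l' hl hl' hs => ?_, h3.congr hae.symm,
    fun B hB => ?_, ?_⟩
  · have hf : (S.Γ ω).fam l = (S.Γ ω).fam l' := (S.ax ω).same_fam l l' hl hl' hs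
    by_cases h : (S.Γ ω).fam l = i
    · rw [hin ω l hl h, hin ω l' hl' (hf ▸ h), at_same (S.ax ω) hl hl' hs]
    · rw [hout ω l h, hout ω l' (hf ▸ h)]
  · set B' : Set (S.Ω × ℕ) := ⋂ b, sg S i b ⁻¹' B with hB'
    have hB'm : MeasurableSet B' := MeasurableSet.iInter fun b => measurable_sg S i b hB.1
    have hB'i : ∀ c, sg S i c ⁻¹' B' = B' := by
      intro c
      ext x
      simp only [hB', Set.mem_preimage, Set.mem_iInter, ← sg_add]
      exact ⟨fun h b => by simpa using h (b - c), fun h b => h _⟩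
    have hBB : B =ᵐ[S.mh i] B' := by
      refine ae_mh S i _ ?_
      filter_upwards [hB.2] with ω hω j hj
      refine propext ⟨fun h => Set.mem_iInter.2 fun b => ?_, fun h => ?_⟩
      · obtain ⟨e1, e2, -⟩ := at_spec (S.ax ω) hj.1 b
        have e : (pt S ω (0, j) ∈ B) = (pt S ω ((S.Γ ω).at' (0, j) b) ∈ B) :=
          hω _ _ hj.1 e1.1 e2
        rw [Set.mem_preimage, sg_can S ω hj, ← e, pt_zero]
        exact h
      · have := Set.mem_iInter.1 h 0
        rwa [Set.mem_preimage, sg_zero] at this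
    rw [setIntegral_congr_set hBB, setIntegral_congr_set hBB, ← h4 B' hB'm hB'i]
    exact integral_congr_ae (ae_restrict_of_ae hae)
  · filter_upwards [ae_gal S i _ h5] with ω hω l hl hf
    obtain ⟨e1, e2, e3⟩ := at_spec (S.ax ω) hl 0
    rw [hf] at e1 e3
    have h6 : IntLim (fun b => F (sg S i b (pt S ω ((S.Γ ω).at' l 0))))
        (F0 (pt S ω ((S.Γ ω).at' l 0))) := hω _ e1
    rw [hin ω l hl hf]
    simp only [sg_pt S ω e1, at_at (S.ax ω) hl, e3, zero_add] at h6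
    exact h6

theorem disp_integrable (i : Fin 3) :
    Measurable (fun x : S.Ω × ℕ => (oth i ((S.Γ x.1).at' (0, x.2) 1).1 : ℝ)) ∧
    Integrable (fun x : S.Ω × ℕ => (oth i ((S.Γ x.1).at' (0, x.2) 1).1 : ℝ)) (S.mh i) := by
  classical
  have hm : Measurable (fun x : S.Ω × ℕ => (oth i ((S.Γ x.1).at' (0, x.2) 1).1 : ℝ)) :=
    (measurable_of_countable fun l : Lb => (oth i l.1 : ℝ)).comp (measurable_at S 1)
  refine ⟨hm, hm.aestronglyMeasurable, ?_⟩
  obtain ⟨F, -, hi, hb⟩ := S.int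
  rw [hasFiniteIntegral_iff_enorm, lintegral_mh S i _ hm.enorm]
  refine lt_of_le_of_lt (lintegral_mono fun ω => le_trans ?_ (hb ω).2.2) hi
  refine ENNReal.tsum_le_tsum fun j => ?_
  split_ifs with h
  · obtain ⟨e1, e2, e3⟩ := at_spec (S.ax ω) h.1 1
    refine le_trans (le_of_eq ?_) (ENNReal.le_tsum ((S.Γ ω).at' (0, j) 1))
    rw [if_pos ⟨⟨h.1, rfl, h.2.2⟩, e1, e2, by simp [e3, idx_zero]⟩, h.2.1]
    simp only [oth_zero, sub_zero]
    rw [Real.enorm_eq_ofReal_abs, ← Int.cast_abs, ← Int.natCast_natAbs, Int.cast_natCast,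
      ENNReal.ofReal_natCast]
  · exact zero_le

end ECub.Erg
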